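import Mathlib

/-!
# The equations of a Lagrangian surface with `Δ H = c H` in terms of invariants

`LS`: null frame `v1`, `v2` (`<v1,v2> = 2`), `n1 = J v1`, `n2 = J v2`, `al = h(v1,v1)`, `m = h(v1,v2)`,
`be = h(v2,v2)`; `κ = al.n1`, `η1 = al.n2 = m.n1`, `η2 = m.n2 = be.n1`, `κ' = be.n2`.  The elements of `LS` are
`e1 = f1/η1`, `e2 = f2/η2`, `a = κ η2/η1^2`, `b = κ' η1/η2^2`, `p = D1 η1/η1^2`, `q = D2 η2/η2^2`,
`o = D1 η2/(η1 η2)`, `g = c/(η1 η2)`.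

`LT`: the same with `X = a - 2`, `Y = b - 2`, `p = 3 u X`, `q = 3 u Y`, `o = -u r`, `r = a b - 4`,
`g = 5/4 - 21 u^2 r - l X Y`.
-/

namespace Pool.H60.LG

/-- the equations in terms of invariants -/
structure LS (K : Type) [Field K] where
  e1 : Derivation ℤ K K
  e2 : Derivation ℤ K K
  a : K
  b : K
  p : K
  q : K
  o : K
  g : K
  comm : ∀ f : K, e1 (e2 f) - e2 (e1 f) = o * (e1 f - e2 f)
  hg : g ≠ 0
  T1 : 2 * p + 3 * o + a * q = 0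
  T2 : 2 * q + 3 * o + b * p = 0
  g1 : e1 g = -(g * (p + o))
  g2 : e2 g = -(g * (q + o))
  a2 : e2 a = p + a * q - 2 * a * o
  b1 : e1 b = q + b * p - 2 * b * o
  o1 : 4 * e1 o = 2 - 4 * g + a * (1 + b) - 4 * o * (p + o)
  o2 : 4 * e2 o = 2 - 4 * g + b * (1 + a) - 4 * o * (q + o)
  q1 : 4 * e1 q = 3 - 4 * g + b - 8 * q * o
  p2 : 4 * e2 p = 3 - 4 * g + a - 8 * p * o

/-- `r = a b - 4` -/
def rr {K : Type} [Field K] (X Y : K) : K := X * Y + 2 * X + 2 * Y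

/-- the equations in the non-degenerate case -/
structure LT (K : Type) [Field K] where
  e1 : Derivation ℤ K K
  e2 : Derivation ℤ K K
  X : K
  Y : K
  u : K
  l : K
  hX : X ≠ 0
  hY : Y ≠ 0
  hX2 : X + 2 ≠ 0
  hY2 : Y + 2 ≠ 0
  hu : u ≠ 0
  hg : 5 - 84 * u ^ 2 * rr X Y - 4 * l * X * Y ≠ 0
  comm : ∀ f : K, e1 (e2 f) - e2 (e1 f) = -(u * rr X Y) * (e1 f - e2 f)
  u1 : 12 * e1 u = 1 + 36 * u ^ 2 + 4 * l * X
  u2 : 12 * e2 u = 1 + 36 * u ^ 2 + 4 * l * Y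
  Y1 : e1 Y = u * (7 * rr X Y + (2 * rr X Y - 3) * Y)
  X2 : e2 X = u * (7 * rr X Y + (2 * rr X Y - 3) * X)
  r1 : 12 * u * e1 (rr X Y) = -4 * rr X Y - 9 - 3 * X - 288 * u ^ 2 * rr X Y
    - 36 * u ^ 2 * rr X Y * X + 12 * u ^ 2 * rr X Y ^ 2 - 4 * l * X * rr X Y - 12 * l * X * Y
  r2 : 12 * u * e2 (rr X Y) = -4 * rr X Y - 9 - 3 * Y - 288 * u ^ 2 * rr X Y
    - 36 * u ^ 2 * rr X Y * Y + 12 * u ^ 2 * rr X Y ^ 2 - 4 * l * Y * rr X Y - 12 * l * X * Y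
  g1 : e1 (84 * u ^ 2 * rr X Y + 4 * l * X * Y)
    = u * (3 * X - rr X Y) * (5 - 84 * u ^ 2 * rr X Y - 4 * l * X * Y)
  g2 : e2 (84 * u ^ 2 * rr X Y + 4 * l * X * Y)
    = u * (3 * Y - rr X Y) * (5 - 84 * u ^ 2 * rr X Y - 4 * l * X * Y)

end Pool.H60.LG
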