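import Pool.Agent.H60.NC.KCirc
import Pool.Agent.H60.LG.Defs

/-!
# Null frames of Lagrangian surfaces

`J` is a constant skew matrix with `J^2 = -1` and `v1.(J v2) = 0`.  Put `n1 = J v1`, `n2 = J v2`,
`κ = al.n1`, `η1 = m.n1`, `η2 = m.n2`, `κ' = be.n2`, `W = m.m`.

1. `v.(J v) = 0`, `(J v).(J w) = v.w` (skew and `J^2 = -1`).  So `n1`, `n2` are orthogonal to `v1`, `v2` and
   `n1.n1 = n2.n2 = 0`, `n1.n2 = 2`: `v1, v2, n1, n2` is a basis, and a normal `x` is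
   `x = (1/2)(x.n2) n1 + (1/2)(x.n1) n2` (as `kcirc_basis` in `KCirc`: a vector orthogonal to the four is 0).
2. Apply `f1`, `f2` to `v1.(J v2) = 0` (`dv D (J v) = J (dv D v)` because the entries of `J` are constants; use
   `s11`, ..., `s22`): `al.n2 = m.n1 = η1`, `be.n1 = m.n2 = η2`.  So `al = (1/2)(η1 n1 + κ n2)`,
   `m = (1/2)(η2 n1 + η1 n2)`, `be = (1/2)(κ' n1 + η2 n2)`, `W = η1 η2`, `m.al = (1/2)(κ η2 + η1^2)`,
   `m.be = (1/2)(η2^2 + κ' η1)`, `al.be = (1/2)(η1 η2 + κ κ')`.  `W ≠ 0`, so `η1, η2 ≠ 0`.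
3. `dv f1 n1 = w1 n1 + J al`, `dv f1 n2 = -w1 n2 + J m`, `dv f2 n1 = w2 n1 + J m`, `dv f2 n2 = -w2 n2 + J be`; `x.(J y) = 0`
   for normal `x`, `y` (by 1 `J y` is tangent).  So for normal `x` with normal part of the derivative:
   `f1 (x.n1) = (dv f1 x).n1 + w1 x.n1` and so on.
4. Codazzi, as in `KCirc` (`q1`, `q2` there; `G = f1 w2 - f2 w1 + 2 w1 w2 = (W - al.be)/2`):
   `dv f2 m = dv f1 be - G v2 + 2 w1 be`, `dv f2 al = dv f1 m + G v1 + 2 w2 al`.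
   Write `D1 η1 := f1 η1 - w1 η1`, `D2 η1 := f2 η1 - w2 η1`, `D1 η2 := f1 η2 + w1 η2`, `D2 η2 := f2 η2 + w2 η2`,
   `D2 κ := f2 κ - 3 w2 κ`, `D1 κ' := f1 κ' + 3 w1 κ'`.  Codazzi times `n1`, `n2`:
   `D2 κ = D1 η1 =: p'`, `D2 η1 = D1 η2 =: o'`, `D1 κ' = D2 η2 =: q'`.
   Moreover `(dv f1 m).n1 = p'`, `(dv f1 m).n2 = o'`, `(dv f2 m).n1 = o'`, `(dv f2 m).n2 = q'`.
5. (L1) `f1 f2 m + w1 f2 m = -c m`, (L2) `f2 f1 m - w2 f1 m = -c m` as in `KCirc`.  (L1).v1: `f1 W = -(dv f2 m).al`,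
   that is `2 p' η2 + 3 η1 o' + κ q' = 0`; (L2).v2: `f2 W = -(dv f1 m).be`, that is `2 q' η1 + 3 η2 o' + κ' p' = 0`.
   (L1).n1, (L1).n2, (L2).n1, (L2).n2 (with `dv f2 m = (1/2)(q' n1 + o' n2) - (W/2) v2 - ((m.be)/2) v1`,
   `dv f1 m = (1/2)(o' n1 + p' n2) - (W/2) v1 - ((m.al)/2) v2`):
   `f1 o' = (W/2 - c) η1 + ((m.be)/2) κ` (`o'` has weight 0), `f1 q' + 2 w1 q' = (W/2 - c) η2 + ((m.be)/2) η1`
   (minus signs of the weights: `q'` is multiplied by `s^(-2)` if `v1` is multiplied by `s`),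
   `f2 p' - 2 w2 p' = (W/2 - c) η1 + ((m.al)/2) η2`, `f2 o' = (W/2 - c) η2 + ((m.al)/2) κ'`.
6. Put `e1 = η1^(-1) f1`, `e2 = η2^(-1) f2`, `a = κ η2/η1^2`, `b = κ' η1/η2^2`, `p = p'/η1^2`, `q = q'/η2^2`,
   `o = o'/(η1 η2)`, `g = c/(η1 η2)`.  These satisfy the equations of `LS`:
   `comm`: from `N.comm`, `f1 η2 = o' - w1 η2`, `f2 η1 = o' + w2 η1`; the others by direct computation, for instance
   `e1 g = -g (p + o)` from `f1 W = η2 p' + η1 o'`, `e2 a = p + a q - 2 a o`, `e1 o = 1/2 - g + a (1 + b)/4 - o (p + o)`.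
-/

namespace Pool.H60.LG

open Matrix
open Pool.H60.PE Pool.H60.NC

variable {K : Type} [Field K]

private theorem klag_ls [CharZero K] (f1 f2 : Derivation ℤ K K) (w1 w2 c κ η1 η2 κ' p o q : K)
    (comm : ∀ g : K, f1 (f2 g) - f2 (f1 g) = -w1 * f2 g - w2 * f1 g) (hc : c ≠ 0)
    (c1 : f1 c = 0) (c2 : f2 c = 0) (h1 : η1 ≠ 0) (h2 : η2 ≠ 0)
    (e11 : f1 η1 = p + w1 * η1) (e12 : f1 η2 = o - w1 * η2) (e21 : f2 η1 = o + w2 * η1)
    (e22 : f2 η2 = q - w2 * η2) (k2 : f2 κ = p + 3 * w2 * κ) (k1 : f1 κ' = q - 3 * w1 * κ')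
    (T1 : 2 * p * η2 + 3 * η1 * o + κ * q = 0) (T2 : 2 * q * η1 + 3 * η2 * o + κ' * p = 0)
    (o1 : 4 * f1 o = (2 * η1 * η2 - 4 * c) * η1 + (κ' * η1 + η2 ^ 2) * κ)
    (q1 : 4 * f1 q = -8 * w1 * q + (2 * η1 * η2 - 4 * c) * η2 + (κ' * η1 + η2 ^ 2) * η1)
    (p2 : 4 * f2 p = 8 * w2 * p + (2 * η1 * η2 - 4 * c) * η1 + (κ * η2 + η1 ^ 2) * η2)
    (o2 : 4 * f2 o = (2 * η1 * η2 - 4 * c) * η2 + (κ * η2 + η1 ^ 2) * κ') :
    ∃ L : LS K, L.p * η1 ^ 2 = p ∧ L.o * (η1 * η2) = o ∧ L.q * η2 ^ 2 = q := by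
  have i1 : ∀ D : Derivation ℤ K K, D η1⁻¹ = -(η1⁻¹ ^ 2 * D η1) := by
    intro D
    rw [Derivation.leibniz_inv, smul_eq_mul, neg_mul]
  have i2 : ∀ D : Derivation ℤ K K, D η2⁻¹ = -(η2⁻¹ ^ 2 * D η2) := by
    intro D
    rw [Derivation.leibniz_inv, smul_eq_mul, neg_mul]
  have pw : ∀ (D : Derivation ℤ K K) (x : K), D (x ^ 2) = 2 * x * D x := by
    intro D x
    rw [pow_two, Derivation.leibniz, smul_eq_mul]
    ring
  refine ⟨{ e1 := η1⁻¹ • f1, e2 := η2⁻¹ • f2, a := κ * η2 * η1⁻¹ ^ 2, b := κ' * η1 * η2⁻¹ ^ 2,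
            p := p * η1⁻¹ ^ 2, q := q * η2⁻¹ ^ 2, o := o * (η1⁻¹ * η2⁻¹), g := c * (η1⁻¹ * η2⁻¹),
            comm := ?_, hg := ?_, T1 := ?_, T2 := ?_, g1 := ?_, g2 := ?_, a2 := ?_, b1 := ?_,
            o1 := ?_, o2 := ?_, q1 := ?_, p2 := ?_ }, ?_, ?_, ?_⟩
  · intro f
    simp only [Derivation.smul_apply, smul_eq_mul, Derivation.leibniz, i1, i2, e12, e21]
    have := comm f
    field_simp
    linear_combination (η1 * η2) * this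
  · exact mul_ne_zero hc (mul_ne_zero (inv_ne_zero h1) (inv_ne_zero h2))
  · field_simp
    linear_combination T1
  · field_simp
    linear_combination T2
  · simp only [Derivation.smul_apply, smul_eq_mul, Derivation.leibniz, i1, i2, e12, e21, e11, e22, c1, c2]
    field_simp
    ring
  · simp only [Derivation.smul_apply, smul_eq_mul, Derivation.leibniz, i1, i2, e12, e21, e11, e22, c1, c2]
    field_simp
    ring
  · simp only [Derivation.smul_apply, smul_eq_mul, Derivation.leibniz, pw, i1, i2, e12, e21, e11, e22, k2]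
    field_simp
    ring
  · simp only [Derivation.smul_apply, smul_eq_mul, Derivation.leibniz, pw, i1, i2, e12, e21, e11, e22, k1]
    field_simp
    ring
  · simp only [Derivation.smul_apply, smul_eq_mul, Derivation.leibniz, pw, i1, i2, e12, e21, e11, e22]
    field_simp
    linear_combination (η1 * η2) * o1
  · simp only [Derivation.smul_apply, smul_eq_mul, Derivation.leibniz, pw, i1, i2, e12, e21, e11, e22]
    field_simp
    linear_combination (η1 * η2) * o2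
  · simp only [Derivation.smul_apply, smul_eq_mul, Derivation.leibniz, pw, i1, i2, e12, e21, e11, e22]
    field_simp
    linear_combination η2 * q1
  · simp only [Derivation.smul_apply, smul_eq_mul, Derivation.leibniz, pw, i1, i2, e12, e21, e11, e22]
    field_simp
    linear_combination η1 * p2
  · show p * η1⁻¹ ^ 2 * η1 ^ 2 = p
    field_simp
  · show o * (η1⁻¹ * η2⁻¹) * (η1 * η2) = o
    field_simp
  · show q * η2⁻¹ ^ 2 * η2 ^ 2 = q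
    field_simp


/-- the product in a null basis -/
private theorem klag_pr [CharZero K] {v1 v2 n1 n2 : Fin 4 → K} (o11 : v1 ⬝ᵥ v1 = 0)
    (o12 : v1 ⬝ᵥ v2 = 2) (o22 : v2 ⬝ᵥ v2 = 0) (p11 : v1 ⬝ᵥ n1 = 0) (p12 : v1 ⬝ᵥ n2 = 0)
    (p21 : v2 ⬝ᵥ n1 = 0) (p22 : v2 ⬝ᵥ n2 = 0) (q11 : n1 ⬝ᵥ n1 = 0) (q12 : n1 ⬝ᵥ n2 = 2)
    (q22 : n2 ⬝ᵥ n2 = 0) (x y : Fin 4 → K) :
    2 * (x ⬝ᵥ y) = (x ⬝ᵥ v1) * (y ⬝ᵥ v2) + (x ⬝ᵥ v2) * (y ⬝ᵥ v1) + (x ⬝ᵥ n1) * (y ⬝ᵥ n2)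
      + (x ⬝ᵥ n2) * (y ⬝ᵥ n1) := by
  have h2 : (2 : K) ≠ 0 := two_ne_zero
  have hG : (Matrix.of ![v1, v2, n1, n2]) * (Matrix.of ![v1, v2, n1, n2])ᵀ
      = Matrix.of ![![0, 2, 0, 0], ![2, 0, 0, 0], ![0, 0, 0, 2], ![0, 0, 2, 0]] := by
    ext i j
    have e : ((Matrix.of ![v1, v2, n1, n2]) * (Matrix.of ![v1, v2, n1, n2])ᵀ) i j
        = (![v1, v2, n1, n2] i) ⬝ᵥ (![v1, v2, n1, n2] j) := by
      rw [Matrix.mul_apply]
      rfl
    rw [e]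
    fin_cases i <;> fin_cases j <;>
      simp [o11, o12, o22, p11, p12, p21, p22, q11, q12, q22, dotProduct_comm v2 v1,
        dotProduct_comm n1 v1, dotProduct_comm n1 v2, dotProduct_comm n2 v1,
        dotProduct_comm n2 v2, dotProduct_comm n2 n1]
  have hH : (Matrix.of ![![0, 2, 0, 0], ![2, 0, 0, 0], ![0, 0, 0, 2], ![0, 0, 2, 0]] :
      Matrix (Fin 4) (Fin 4) K) *
      Matrix.of ![![0, 2⁻¹, 0, 0], ![2⁻¹, 0, 0, 0], ![0, 0, 0, 2⁻¹], ![0, 0, 2⁻¹, 0]] = 1 := by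
    ext i j
    fin_cases i <;> fin_cases j <;>
      simp [Matrix.mul_apply, Fin.sum_univ_four, h2]
  have h1 : (Matrix.of ![v1, v2, n1, n2]) * ((Matrix.of ![v1, v2, n1, n2])ᵀ *
      Matrix.of ![![0, 2⁻¹, 0, 0], ![2⁻¹, 0, 0, 0], ![0, 0, 0, 2⁻¹], ![0, 0, 2⁻¹, 0]]) = 1 := by
    rw [← Matrix.mul_assoc, hG, hH]
  have h3 := mul_eq_one_comm.mp h1
  have hz : ∀ d : Fin 4 → K, v1 ⬝ᵥ d = 0 → v2 ⬝ᵥ d = 0 → n1 ⬝ᵥ d = 0 → n2 ⬝ᵥ d = 0 → d = 0 := by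
    intro d d1 d2 d3 d4
    have h4 : (Matrix.of ![v1, v2, n1, n2]).mulVec d = 0 := by
      funext i
      fin_cases i
      · exact d1
      · exact d2
      · exact d3
      · exact d4
    have h5 : (((Matrix.of ![v1, v2, n1, n2])ᵀ *
        Matrix.of ![![0, 2⁻¹, 0, 0], ![2⁻¹, 0, 0, 0], ![0, 0, 0, 2⁻¹], ![0, 0, 2⁻¹, 0]]) *
        (Matrix.of ![v1, v2, n1, n2])).mulVec d = 0 := by
      rw [← Matrix.mulVec_mulVec, h4, Matrix.mulVec_zero]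
    rw [h3, Matrix.one_mulVec] at h5
    exact h5
  have o21 : v2 ⬝ᵥ v1 = 2 := by rw [dotProduct_comm]; exact o12
  have q21 : n2 ⬝ᵥ n1 = 2 := by rw [dotProduct_comm]; exact q12
  have r11 : n1 ⬝ᵥ v1 = 0 := by rw [dotProduct_comm]; exact p11
  have r12 : n1 ⬝ᵥ v2 = 0 := by rw [dotProduct_comm]; exact p21
  have r21 : n2 ⬝ᵥ v1 = 0 := by rw [dotProduct_comm]; exact p12
  have r22 : n2 ⬝ᵥ v2 = 0 := by rw [dotProduct_comm]; exact p22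
  have hd : (2 : K) • x - (x ⬝ᵥ v2) • v1 - (x ⬝ᵥ v1) • v2 - (x ⬝ᵥ n2) • n1 - (x ⬝ᵥ n1) • n2
      = 0 := by
    apply hz <;>
      simp only [dotProduct_sub, dotProduct_smul, smul_eq_mul, o11, o12, o21, o22, p11, p12, p21,
        p22, q11, q12, q21, q22, r11, r12, r21, r22, dotProduct_comm v1 x, dotProduct_comm v2 x,
        dotProduct_comm n1 x, dotProduct_comm n2 x] <;> ring
  have e := congrArg (fun d => d ⬝ᵥ y) hd
  simp only [sub_dotProduct, smul_dotProduct, smul_eq_mul, zero_dotProduct,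
    dotProduct_comm v1 y, dotProduct_comm v2 y, dotProduct_comm n1 y, dotProduct_comm n2 y] at e
  linear_combination e

theorem exists_ls [CharZero K] (N : NFr K) (J : Matrix (Fin 4) (Fin 4) K)
    (h1 : ∀ i j, N.f1 (J i j) = 0) (h2 : ∀ i j, N.f2 (J i j) = 0)
    (ht : Jᵀ = -J) (hJ : J * J = -1) (hL : N.v1 ⬝ᵥ (J *ᵥ N.v2) = 0) (hW : N.m ⬝ᵥ N.m ≠ 0) :
    ∃ L : LS K,
      dv N.f1 N.m ⬝ᵥ (J *ᵥ N.v1) = L.p * (N.m ⬝ᵥ (J *ᵥ N.v1)) ^ 2 ∧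
      dv N.f1 N.m ⬝ᵥ (J *ᵥ N.v2) = L.o * ((N.m ⬝ᵥ (J *ᵥ N.v1)) * (N.m ⬝ᵥ (J *ᵥ N.v2))) ∧
      dv N.f2 N.m ⬝ᵥ (J *ᵥ N.v1) = L.o * ((N.m ⬝ᵥ (J *ᵥ N.v1)) * (N.m ⬝ᵥ (J *ᵥ N.v2))) ∧
      dv N.f2 N.m ⬝ᵥ (J *ᵥ N.v2) = L.q * (N.m ⬝ᵥ (J *ᵥ N.v2)) ^ 2 := by
  have h20 : (2 : K) ≠ 0 := two_ne_zero
  have can : ∀ x y : K, 2 * x = 2 * y → x = y := fun x y h => mul_left_cancel₀ h20 h
  have sk : ∀ x y : Fin 4 → K, x ⬝ᵥ (J *ᵥ y) = -((J *ᵥ x) ⬝ᵥ y) := by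
    intro x y
    rw [dotProduct_mulVec, ← mulVec_transpose, ht, neg_mulVec, neg_dotProduct]
  have jj : ∀ x : Fin 4 → K, J *ᵥ (J *ᵥ x) = -x := by
    intro x
    rw [mulVec_mulVec, hJ, neg_mulVec, one_mulVec]
  have jp : ∀ x y : Fin 4 → K, (J *ᵥ x) ⬝ᵥ (J *ᵥ y) = x ⬝ᵥ y := by
    intro x y
    rw [sk, jj, neg_dotProduct, neg_neg]
  have js : ∀ x : Fin 4 → K, x ⬝ᵥ (J *ᵥ x) = 0 := by
    intro x
    have h := sk x x
    rw [dotProduct_comm (J *ᵥ x) x] at h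
    apply can
    linear_combination h
  have dJ : ∀ D : Derivation ℤ K K, (∀ i j, D (J i j) = 0) → ∀ v : Fin 4 → K,
      dv D (J *ᵥ v) = J *ᵥ dv D v := by
    intro D hD v
    funext i
    simp only [dv, mulVec, dotProduct, map_sum, Derivation.leibniz, smul_eq_mul, hD, mul_zero,
      add_zero]
  have hz : ∀ (D : Derivation ℤ K K) (v w' : Fin 4 → K) (t : K), v ⬝ᵥ w' = t →
      dv D v ⬝ᵥ w' + v ⬝ᵥ dv D w' = D t := by
    intro D v w' t h1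
    rw [← GNfAux.d_dot, h1]
  have vc : ∀ v : Fin 4 → K, dv N.f1 (dv N.f2 v) - dv N.f2 (dv N.f1 v)
      = -N.w1 • dv N.f2 v - N.w2 • dv N.f1 v := by
    intro v
    funext k
    exact N.comm (v k)
  obtain ⟨n1, hn1⟩ : ∃ n, J *ᵥ N.v1 = n := ⟨_, rfl⟩
  obtain ⟨n2, hn2⟩ : ∃ n, J *ᵥ N.v2 = n := ⟨_, rfl⟩
  have o21 : N.v2 ⬝ᵥ N.v1 = 2 := by rw [dotProduct_comm]; exact N.o12
  have p11 : N.v1 ⬝ᵥ n1 = 0 := by rw [← hn1]; exact js _
  have p12 : N.v1 ⬝ᵥ n2 = 0 := by rw [← hn2]; exact hL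
  have p22 : N.v2 ⬝ᵥ n2 = 0 := by rw [← hn2]; exact js _
  have p21 : N.v2 ⬝ᵥ n1 = 0 := by
    rw [← hn1, sk, hn2, dotProduct_comm, p12, neg_zero]
  have q11 : n1 ⬝ᵥ n1 = 0 := by rw [← hn1, jp]; exact N.o11
  have q12 : n1 ⬝ᵥ n2 = 2 := by rw [← hn1, ← hn2, jp]; exact N.o12
  have q22 : n2 ⬝ᵥ n2 = 0 := by rw [← hn2, jp]; exact N.o22
  have q21 : n2 ⬝ᵥ n1 = 2 := by rw [dotProduct_comm]; exact q12
  have r11 : n1 ⬝ᵥ N.v1 = 0 := by rw [dotProduct_comm]; exact p11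
  have r12 : n1 ⬝ᵥ N.v2 = 0 := by rw [dotProduct_comm]; exact p21
  have r21 : n2 ⬝ᵥ N.v1 = 0 := by rw [dotProduct_comm]; exact p12
  have r22 : n2 ⬝ᵥ N.v2 = 0 := by rw [dotProduct_comm]; exact p22
  have pr := klag_pr N.o11 N.o12 N.o22 p11 p12 p21 p22 q11 q12 q22
  have m1 : N.m ⬝ᵥ N.v1 = 0 := by rw [dotProduct_comm]; exact N.n1
  have m2 : N.m ⬝ᵥ N.v2 = 0 := by rw [dotProduct_comm]; exact N.n2
  have be1 : N.be ⬝ᵥ N.v1 = 0 := by rw [dotProduct_comm]; exact N.b1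
  have be2 : N.be ⬝ᵥ N.v2 = 0 := by rw [dotProduct_comm]; exact N.b2
  have al1 : N.al ⬝ᵥ N.v1 = 0 := by rw [dotProduct_comm]; exact N.a1
  have al2 : N.al ⬝ᵥ N.v2 = 0 := by rw [dotProduct_comm]; exact N.a2
  -- scalars
  obtain ⟨κ, hκ⟩ : ∃ t, N.al ⬝ᵥ n1 = t := ⟨_, rfl⟩
  obtain ⟨η1, hη1⟩ : ∃ t, N.m ⬝ᵥ n1 = t := ⟨_, rfl⟩
  obtain ⟨η2, hη2⟩ : ∃ t, N.m ⬝ᵥ n2 = t := ⟨_, rfl⟩
  obtain ⟨κ', hκ'⟩ : ∃ t, N.be ⬝ᵥ n2 = t := ⟨_, rfl⟩
  -- derivatives of `n1`, `n2`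
  have d11 : dv N.f1 n1 = N.w1 • n1 + J *ᵥ N.al := by
    rw [← hn1, dJ N.f1 h1, N.s11, mulVec_add, mulVec_smul]
  have d12 : dv N.f1 n2 = -N.w1 • n2 + J *ᵥ N.m := by
    rw [← hn2, dJ N.f1 h1, N.s12, mulVec_add, mulVec_smul]
  have d21 : dv N.f2 n1 = N.w2 • n1 + J *ᵥ N.m := by
    rw [← hn1, dJ N.f2 h2, N.s21, mulVec_add, mulVec_smul]
  have d22 : dv N.f2 n2 = -N.w2 • n2 + J *ᵥ N.be := by
    rw [← hn2, dJ N.f2 h2, N.s22, mulVec_add, mulVec_smul]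
  have xJ1 : ∀ x : Fin 4 → K, (J *ᵥ x) ⬝ᵥ N.v1 = -(x ⬝ᵥ n1) := by
    intro x
    rw [← hn1, sk, neg_neg]
  have xJ2 : ∀ x : Fin 4 → K, (J *ᵥ x) ⬝ᵥ N.v2 = -(x ⬝ᵥ n2) := by
    intro x
    rw [← hn2, sk, neg_neg]
  have xJ3 : ∀ x : Fin 4 → K, (J *ᵥ x) ⬝ᵥ n1 = x ⬝ᵥ N.v1 := by
    intro x
    rw [← hn1, jp]
  have xJ4 : ∀ x : Fin 4 → K, (J *ᵥ x) ⬝ᵥ n2 = x ⬝ᵥ N.v2 := by
    intro x
    rw [← hn2, jp]
  have aln2 : N.al ⬝ᵥ n2 = η1 := by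
    have e := hz N.f1 N.v1 n2 0 p12
    rw [N.s11, d12, add_dotProduct, smul_dotProduct, dotProduct_add, dotProduct_smul, p12,
      dotProduct_comm N.v1 (J *ᵥ N.m), xJ1, hη1, map_zero] at e
    simp only [smul_eq_mul] at e
    linear_combination e
  have ben1 : N.be ⬝ᵥ n1 = η2 := by
    have e := hz N.f2 N.v1 n2 0 p12
    rw [N.s21, d22, add_dotProduct, smul_dotProduct, dotProduct_add, dotProduct_smul, p12,
      dotProduct_comm N.v1 (J *ᵥ N.be), xJ1, hη2, map_zero] at e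
    simp only [smul_eq_mul] at e
    linear_combination -e
  have hW' : N.m ⬝ᵥ N.m = η1 * η2 := by
    apply can
    rw [pr, m1, m2, hη1, hη2]
    ring
  have hma : 2 * (N.m ⬝ᵥ N.al) = κ * η2 + η1 ^ 2 := by
    rw [pr, m1, m2, hη1, hη2, aln2, hκ]
    ring
  have hmb : 2 * (N.m ⬝ᵥ N.be) = κ' * η1 + η2 ^ 2 := by
    rw [pr, m1, m2, hη1, hη2, ben1, hκ']
    ring
  have hη10 : η1 ≠ 0 := by
    rintro rfl
    apply hW
    rw [hW', zero_mul]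
  have hη20 : η2 ≠ 0 := by
    rintro rfl
    apply hW
    rw [hW', mul_zero]
  -- products of `J al`, `J m`, `J be`
  have Jal : ∀ x : Fin 4 → K, 2 * (x ⬝ᵥ (J *ᵥ N.al)) = -κ * (x ⬝ᵥ N.v2) - η1 * (x ⬝ᵥ N.v1) := by
    intro x
    rw [pr, xJ1, xJ2, xJ3, xJ4, al1, al2, hκ, aln2]
    ring
  have Jm : ∀ x : Fin 4 → K, 2 * (x ⬝ᵥ (J *ᵥ N.m)) = -η1 * (x ⬝ᵥ N.v2) - η2 * (x ⬝ᵥ N.v1) := by
    intro x
    rw [pr, xJ1, xJ2, xJ3, xJ4, m1, m2, hη1, hη2]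
    ring
  have Jbe : ∀ x : Fin 4 → K, 2 * (x ⬝ᵥ (J *ᵥ N.be)) = -η2 * (x ⬝ᵥ N.v2) - κ' * (x ⬝ᵥ N.v1) := by
    intro x
    rw [pr, xJ1, xJ2, xJ3, xJ4, be1, be2, ben1, hκ']
    ring
  have x11 : ∀ x : Fin 4 → K, 2 * (x ⬝ᵥ dv N.f1 n1)
      = 2 * N.w1 * (x ⬝ᵥ n1) - κ * (x ⬝ᵥ N.v2) - η1 * (x ⬝ᵥ N.v1) := by
    intro x
    rw [d11, dotProduct_add, dotProduct_smul, mul_add, Jal, smul_eq_mul]
    ring
  have x12 : ∀ x : Fin 4 → K, 2 * (x ⬝ᵥ dv N.f1 n2)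
      = -2 * N.w1 * (x ⬝ᵥ n2) - η1 * (x ⬝ᵥ N.v2) - η2 * (x ⬝ᵥ N.v1) := by
    intro x
    rw [d12, dotProduct_add, dotProduct_smul, mul_add, Jm, smul_eq_mul]
    ring
  have x21 : ∀ x : Fin 4 → K, 2 * (x ⬝ᵥ dv N.f2 n1)
      = 2 * N.w2 * (x ⬝ᵥ n1) - η1 * (x ⬝ᵥ N.v2) - η2 * (x ⬝ᵥ N.v1) := by
    intro x
    rw [d21, dotProduct_add, dotProduct_smul, mul_add, Jm, smul_eq_mul]
    ring
  have x22 : ∀ x : Fin 4 → K, 2 * (x ⬝ᵥ dv N.f2 n2)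
      = -2 * N.w2 * (x ⬝ᵥ n2) - η2 * (x ⬝ᵥ N.v2) - κ' * (x ⬝ᵥ N.v1) := by
    intro x
    rw [d22, dotProduct_add, dotProduct_smul, mul_add, Jbe, smul_eq_mul]
    ring
  -- Codazzi
  obtain ⟨G, hG⟩ : ∃ G, N.f1 N.w2 - N.f2 N.w1 + 2 * N.w1 * N.w2 = G := ⟨_, rfl⟩
  have q1 : dv N.f1 N.be = dv N.f2 N.m + G • N.v2 - (2 * N.w1) • N.be := by
    have e1 := vc N.v2
    rw [N.s22, N.s12] at e1
    simp only [GNfAux.dv_add, GNfAux.dv_smul, N.s22, N.s12, map_neg] at e1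
    funext k
    have := congrFun e1 k
    simp only [Pi.add_apply, Pi.sub_apply, Pi.smul_apply, smul_eq_mul] at this ⊢
    rw [← hG]
    linear_combination this
  have q2 : dv N.f2 N.al = dv N.f1 N.m + G • N.v1 + (2 * N.w2) • N.al := by
    have e1 := vc N.v1
    rw [N.s21, N.s11] at e1
    simp only [GNfAux.dv_add, GNfAux.dv_smul, N.s21, N.s11] at e1
    funext k
    have := congrFun e1 k
    simp only [Pi.add_apply, Pi.sub_apply, Pi.smul_apply, smul_eq_mul] at this ⊢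
    rw [← hG]
    linear_combination -this
  have L1 : dv N.f1 (dv N.f2 N.m) + N.w1 • dv N.f2 N.m = -N.c • N.m := by
    funext k
    have a1 := congrFun N.lap k
    have a2 := congrFun (vc N.m) k
    simp only [Pi.add_apply, Pi.sub_apply, Pi.smul_apply, smul_eq_mul] at a1 a2 ⊢
    apply can
    linear_combination a1 + a2
  have L2 : dv N.f2 (dv N.f1 N.m) - N.w2 • dv N.f1 N.m = -N.c • N.m := by
    funext k
    have a1 := congrFun N.lap k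
    have a2 := congrFun (vc N.m) k
    simp only [Pi.add_apply, Pi.sub_apply, Pi.smul_apply, smul_eq_mul] at a1 a2 ⊢
    apply can
    linear_combination a1 - a2
  obtain ⟨A, hA⟩ : ∃ A, dv N.f1 N.m = A := ⟨_, rfl⟩
  obtain ⟨B, hB⟩ : ∃ B, dv N.f2 N.m = B := ⟨_, rfl⟩
  rw [hB] at L1
  rw [hA] at L2
  rw [hB] at q1
  rw [hA] at q2
  obtain ⟨p, hp⟩ : ∃ t, A ⬝ᵥ n1 = t := ⟨_, rfl⟩
  obtain ⟨o, ho⟩ : ∃ t, A ⬝ᵥ n2 = t := ⟨_, rfl⟩
  obtain ⟨q, hq⟩ : ∃ t, B ⬝ᵥ n2 = t := ⟨_, rfl⟩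
  have A1 : 2 * (A ⬝ᵥ N.v1) = -(κ * η2 + η1 ^ 2) := by
    have e := hz N.f1 N.m N.v1 0 m1
    rw [hA, N.s11, dotProduct_add, dotProduct_smul, m1, map_zero, smul_zero] at e
    linear_combination 2 * e - hma
  have A2 : A ⬝ᵥ N.v2 = -(η1 * η2) := by
    have e := hz N.f1 N.m N.v2 0 m2
    rw [hA, N.s12, dotProduct_add, dotProduct_smul, m2, map_zero, smul_zero, hW'] at e
    linear_combination e
  have B1 : B ⬝ᵥ N.v1 = -(η1 * η2) := by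
    have e := hz N.f2 N.m N.v1 0 m1
    rw [hB, N.s21, dotProduct_add, dotProduct_smul, m1, map_zero, smul_zero, hW'] at e
    linear_combination e
  have B2 : 2 * (B ⬝ᵥ N.v2) = -(κ' * η1 + η2 ^ 2) := by
    have e := hz N.f2 N.m N.v2 0 m2
    rw [hB, N.s22, dotProduct_add, dotProduct_smul, m2, map_zero, smul_zero] at e
    linear_combination 2 * e - hmb
  have e11 : N.f1 η1 = p + N.w1 * η1 := by
    have e := hz N.f1 N.m n1 _ hη1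
    have e' := x11 N.m
    rw [m1, m2, hη1] at e'
    rw [hA, hp] at e
    apply can
    linear_combination -2 * e + e'
  have e12 : N.f1 η2 = o - N.w1 * η2 := by
    have e := hz N.f1 N.m n2 _ hη2
    have e' := x12 N.m
    rw [m1, m2, hη2] at e'
    rw [hA, ho] at e
    apply can
    linear_combination -2 * e + e'
  have e22 : N.f2 η2 = q - N.w2 * η2 := by
    have e := hz N.f2 N.m n2 _ hη2
    have e' := x22 N.m
    rw [m1, m2, hη2] at e'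
    rw [hB, hq] at e
    apply can
    linear_combination -2 * e + e'
  have k2 : N.f2 κ = p + 3 * N.w2 * κ := by
    have e := hz N.f2 N.al n1 _ hκ
    have e' := x21 N.al
    rw [al1, al2, hκ] at e'
    rw [q2, add_dotProduct, add_dotProduct, smul_dotProduct, smul_dotProduct, hp, p11, hκ] at e
    simp only [smul_eq_mul] at e
    apply can
    linear_combination -2 * e + e'
  have e21 : N.f2 η1 = o + N.w2 * η1 := by
    have e := hz N.f2 N.al n2 _ aln2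
    have e' := x22 N.al
    rw [al1, al2, aln2] at e'
    rw [q2, add_dotProduct, add_dotProduct, smul_dotProduct, smul_dotProduct, ho, p12, aln2] at e
    simp only [smul_eq_mul] at e
    apply can
    linear_combination -2 * e + e'
  have k1 : N.f1 κ' = q - 3 * N.w1 * κ' := by
    have e := hz N.f1 N.be n2 _ hκ'
    have e' := x12 N.be
    rw [be1, be2, hκ'] at e'
    rw [q1, sub_dotProduct, add_dotProduct, smul_dotProduct, smul_dotProduct, hq, p22, hκ'] at e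
    simp only [smul_eq_mul] at e
    apply can
    linear_combination -2 * e + e'
  have hB1 : B ⬝ᵥ n1 = o := by
    have e := hz N.f2 N.m n1 _ hη1
    have e' := x21 N.m
    rw [m1, m2, hη1] at e'
    rw [hB, e21] at e
    apply can
    linear_combination 2 * e - e'
  have hd2 : ∀ (D : Derivation ℤ K K) (x : K), D (2 * x) = 2 * D x := by
    intro D x
    rw [two_mul, two_mul, map_add]
  have T1 : 2 * p * η2 + 3 * η1 * o + κ * q = 0 := by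
    have e := hz N.f1 B N.v1 _ B1
    rw [N.s11, dotProduct_add, dotProduct_smul, B1, map_neg, Derivation.leibniz, e11, e12] at e
    have e' := congrArg (fun x => x ⬝ᵥ N.v1) L1
    simp only [add_dotProduct, smul_dotProduct, smul_eq_mul, B1, m1] at e'
    have e3 := pr B N.al
    rw [al1, al2, hB1, hq, hκ, aln2] at e3
    simp only [smul_eq_mul] at e
    linear_combination 2 * e - 2 * e' - e3
  have T2 : 2 * q * η1 + 3 * η2 * o + κ' * p = 0 := by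
    have e := hz N.f2 A N.v2 _ A2
    rw [N.s22, dotProduct_add, dotProduct_smul, A2, map_neg, Derivation.leibniz, e21, e22] at e
    have e' := congrArg (fun x => x ⬝ᵥ N.v2) L2
    simp only [sub_dotProduct, smul_dotProduct, smul_eq_mul, A2, m2] at e'
    have e3 := pr A N.be
    rw [be1, be2, ben1, hκ', hp, ho] at e3
    simp only [smul_eq_mul] at e
    linear_combination 2 * e - 2 * e' - e3
  have o1 : 4 * N.f1 o = (2 * η1 * η2 - 4 * N.c) * η1 + (κ' * η1 + η2 ^ 2) * κ := by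
    have e := hz N.f1 B n1 _ hB1
    have e' := congrArg (fun x => x ⬝ᵥ n1) L1
    simp only [add_dotProduct, smul_dotProduct, smul_eq_mul, hB1, hη1] at e'
    have e3 := x11 B
    rw [B1, hB1] at e3
    linear_combination -4 * e + 4 * e' + 2 * e3 - κ * B2
  have q1' : 4 * N.f1 q = -8 * N.w1 * q + (2 * η1 * η2 - 4 * N.c) * η2
      + (κ' * η1 + η2 ^ 2) * η1 := by
    have e := hz N.f1 B n2 _ hq
    have e' := congrArg (fun x => x ⬝ᵥ n2) L1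
    simp only [add_dotProduct, smul_dotProduct, smul_eq_mul, hq, hη2] at e'
    have e3 := x12 B
    rw [B1, hq] at e3
    linear_combination -4 * e + 4 * e' + 2 * e3 - η1 * B2
  have p2' : 4 * N.f2 p = 8 * N.w2 * p + (2 * η1 * η2 - 4 * N.c) * η1
      + (κ * η2 + η1 ^ 2) * η2 := by
    have e := hz N.f2 A n1 _ hp
    have e' := congrArg (fun x => x ⬝ᵥ n1) L2
    simp only [sub_dotProduct, smul_dotProduct, smul_eq_mul, hp, hη1] at e'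
    have e3 := x21 A
    rw [A2, hp] at e3
    linear_combination -4 * e + 4 * e' + 2 * e3 - η2 * A1
  have o2 : 4 * N.f2 o = (2 * η1 * η2 - 4 * N.c) * η2 + (κ * η2 + η1 ^ 2) * κ' := by
    have e := hz N.f2 A n2 _ ho
    have e' := congrArg (fun x => x ⬝ᵥ n2) L2
    simp only [sub_dotProduct, smul_dotProduct, smul_eq_mul, ho, hη2] at e'
    have e3 := x22 A
    rw [A2, ho] at e3
    linear_combination -4 * e + 4 * e' + 2 * e3 - κ' * A1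
  obtain ⟨L, l1, l2, l3⟩ := klag_ls N.f1 N.f2 N.w1 N.w2 N.c κ η1 η2 κ' p o q N.comm N.hc N.c1 N.c2
    hη10 hη20 e11 e12 e21 e22 k2 k1 T1 T2 o1 q1' p2' o2
  refine ⟨L, ?_, ?_, ?_, ?_⟩
  · rw [hA, hn1, hp, hη1, l1]
  · rw [hA, hn1, hn2, ho, hη1, hη2, l2]
  · rw [hB, hn1, hn2, hB1, hη1, hη2, l2]
  · rw [hB, hn2, hq, hη2, l3]

end Pool.H60.LG
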