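import Pool.Agent.H60.LG.LTF

/-!
# The system `LT` has no solution with `X = Y`

With `t = u^2` and `r = X^2 + 4 X`:
1. `r1` and `e1 X = u (7 r + (2 r - 3) X)`: `F1 = 0`, linear in `l` and `t`;
2. the derivative of 1 and `g1`: `E = 0`;
3. elimination of `l`: `H = 0`, linear in `t`;
4. the derivative of 3: `R = 0`; elimination of `l` and `t`: `P8(X) = 0`;
5. `P8'(X) e1 X = 0`, and `P8` is coprime to `P8'(X) X (2 X + 5)(X + 5)`.
-/

namespace Pool.H60.LG

variable {K : Type} [Field K]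

private theorem lta_alg [CharZero K] (D : Derivation ℤ K K) {X u l : K} (hX0 : X ≠ 0) (hu0 : u ≠ 0)
    (hX : D X = u * (7 * (X ^ 2 + 4 * X) + (2 * (X ^ 2 + 4 * X) - 3) * X))
    (hu : 12 * D u = 1 + 36 * u ^ 2 + 4 * l * X)
    (hF : 36 * X ^ 4 * u ^ 2 + 396 * X ^ 3 * u ^ 2 + 1560 * X ^ 2 * u ^ 2 + 4 * X ^ 3 * l
      + 2352 * X * u ^ 2 + 28 * X ^ 2 * l + 4 * X ^ 2 + 19 * X + 9 = 0)
    (hg : D (84 * u ^ 2 * (X ^ 2 + 4 * X) + 4 * l * X ^ 2)
      = u * (3 * X - (X ^ 2 + 4 * X)) * (5 - 84 * u ^ 2 * (X ^ 2 + 4 * X) - 4 * l * X ^ 2)) :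
    False := by
  have h7 : X + 7 ≠ 0 := by
    intro h
    have e1 : D X = 0 := by
      have : X = -7 := by linear_combination h
      rw [this, map_neg, ofNat_der, neg_zero]
    rw [e1] at hX
    have e2 := (mul_eq_zero.mp hX.symm).resolve_left hu0
    have e3 : (126 : K) = 0 := by
      linear_combination (-1) * e2 + (2 * X ^ 2 + X + 18) * h
    exact absurd e3 (by norm_num)
  -- `E`
  have hE : 288 * X ^ 5 * u ^ 2 + 4284 * X ^ 4 * u ^ 2 + 23340 * X ^ 3 * u ^ 2 + 36 * X ^ 4 * l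
      + 54768 * X ^ 2 * u ^ 2 + 300 * X ^ 3 * l + 46368 * X * u ^ 2 + 552 * X ^ 2 * l + 22 * X ^ 3
      + 205 * X ^ 2 + 551 * X + 440 = 0 := by
    have h1 := congrArg D hF
    simp only [map_add, map_sub, map_neg, Derivation.leibniz, Derivation.leibniz_pow, ofNat_der,
      smul_eq_mul, nsmul_eq_mul, mul_zero, add_zero, zero_add, map_zero] at h1 hg
    push_cast at h1 hg
    have h2 : (u * X) * (288 * X ^ 5 * u ^ 2 + 4284 * X ^ 4 * u ^ 2 + 23340 * X ^ 3 * u ^ 2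
      + 36 * X ^ 4 * l + 54768 * X ^ 2 * u ^ 2 + 300 * X ^ 3 * l + 46368 * X * u ^ 2
      + 552 * X ^ 2 * l + 22 * X ^ 3 + 205 * X ^ 2 + 551 * X + 440) = 0 := by
      linear_combination h1 - (X + 7) * hg
        - (6 * X ^ 4 * u + 52 * X ^ 3 * u + 106 * X ^ 2 * u) * hu
        - (144 * X ^ 3 * u ^ 2 + 1020 * X ^ 2 * u ^ 2 + 1608 * X * u ^ 2 + 4 * X ^ 2 * l
          + 8 * X + 19) * hX
    exact (mul_eq_zero.mp h2).resolve_left (mul_ne_zero hu0 hX0)
  -- `H`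
  have hH : 18 * X ^ 6 * u ^ 2 - 18 * X ^ 5 * u ^ 2 - 2310 * X ^ 4 * u ^ 2 - 12666 * X ^ 3 * u ^ 2
      - 19032 * X ^ 2 * u ^ 2 + 7 * X ^ 4 + 56 * X ^ 3 + 36 * X ^ 2 - 500 * X - 919 = 0 := by
    linear_combination (-1 / 2) * ((X + 7) * hE - 3 * (3 * X ^ 2 + 25 * X + 46) * hF)
  -- `R`
  have hR : -432 * X ^ 7 * u ^ 2 - 2880 * X ^ 6 * u ^ 2 + 34044 * X ^ 5 * u ^ 2 - 24 * X ^ 6 * l + 433908 * X ^ 4 * u ^ 2
        + 24 * X ^ 5 * l + 1781916 * X ^ 3 * u ^ 2 + 3080 * X ^ 4 * l - 118 * X ^ 5 + 3193812 * X ^ 2 * u ^ 2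
        + 16888 * X ^ 3 * l - 1506 * X ^ 4 + 2131584 * X * u ^ 2 + 25376 * X ^ 2 * l - 5958 * X ^ 3
        - 4338 * X ^ 2 + 17744 * X + 25000 = 0 := by
    have h1 := congrArg D hH
    simp only [map_add, map_sub, map_neg, Derivation.leibniz, Derivation.leibniz_pow, ofNat_der,
      smul_eq_mul, nsmul_eq_mul, mul_zero, add_zero, zero_add, map_zero, sub_zero] at h1
    push_cast at h1
    have h2 : (u * X) * (-432 * X ^ 7 * u ^ 2 - 2880 * X ^ 6 * u ^ 2 + 34044 * X ^ 5 * u ^ 2 - 24 * X ^ 6 * l + 433908 * X ^ 4 * u ^ 2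
        + 24 * X ^ 5 * l + 1781916 * X ^ 3 * u ^ 2 + 3080 * X ^ 4 * l - 118 * X ^ 5 + 3193812 * X ^ 2 * u ^ 2
        + 16888 * X ^ 3 * l - 1506 * X ^ 4 + 2131584 * X * u ^ 2 + 25376 * X ^ 2 * l - 5958 * X ^ 3
        - 4338 * X ^ 2 + 17744 * X + 25000) = 0 := by
      linear_combination (-2) * h1 - (-6 * X ^ 6 * u + 6 * X ^ 5 * u + 770 * X ^ 4 * u + 4222 * X ^ 3 * u + 6344 * X ^ 2 * u) * hu
        - (-216 * X ^ 5 * u ^ 2 + 180 * X ^ 4 * u ^ 2 + 18480 * X ^ 3 * u ^ 2 + 75996 * X ^ 2 * u ^ 2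
        + 76128 * X * u ^ 2 - 56 * X ^ 3 - 336 * X ^ 2 - 144 * X + 1000) * hX
    exact (mul_eq_zero.mp h2).resolve_left (mul_ne_zero hu0 hX0)
  -- `R2`
  have hR2 : -108 * X ^ 8 * u ^ 2 - 1872 * X ^ 7 * u ^ 2 - 3426 * X ^ 6 * u ^ 2 + 110028 * X ^ 5 * u ^ 2
        + 851832 * X ^ 4 * u ^ 2 - 47 * X ^ 6 + 2378820 * X ^ 3 * u ^ 2 - 1121 * X ^ 5 + 2330742 * X ^ 2 * u ^ 2
        - 9820 * X ^ 4 - 38808 * X ^ 3 - 62573 * X ^ 2 - 4663 * X + 58952 = 0 := by
    have h1 : (8 : K) * (-108 * X ^ 8 * u ^ 2 - 1872 * X ^ 7 * u ^ 2 - 3426 * X ^ 6 * u ^ 2 + 110028 * X ^ 5 * u ^ 2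
        + 851832 * X ^ 4 * u ^ 2 - 47 * X ^ 6 + 2378820 * X ^ 3 * u ^ 2 - 1121 * X ^ 5 + 2330742 * X ^ 2 * u ^ 2
        - 9820 * X ^ 4 - 38808 * X ^ 3 - 62573 * X ^ 2 - 4663 * X + 58952) = 0 := by
      linear_combination 4 * (X + 7) * hR - (-24 * X ^ 4 + 24 * X ^ 3 + 3080 * X ^ 2 + 16888 * X + 25376) * hF
    exact (mul_eq_zero.mp h1).resolve_left (by norm_num)
  -- `P8`
  have hP : -5 * X ^ 8 + 60 * X ^ 7 + 4110 * X ^ 6 + 56080 * X ^ 5 + 364224 * X ^ 4 + 1300452 * X ^ 3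
        + 2602002 * X ^ 2 + 2723520 * X + 1156437 = 0 := by
    have h1 : (18 * X ^ 2 * (X + 7) ^ 2) * (-5 * X ^ 8 + 60 * X ^ 7 + 4110 * X ^ 6 + 56080 * X ^ 5 + 364224 * X ^ 4 + 1300452 * X ^ 3
        + 2602002 * X ^ 2 + 2723520 * X + 1156437) = 0 := by
      linear_combination (18 * X ^ 6 - 18 * X ^ 5 - 2310 * X ^ 4 - 12666 * X ^ 3 - 19032 * X ^ 2) * hR2 - (-108 * X ^ 8 - 1872 * X ^ 7 - 3426 * X ^ 6 + 110028 * X ^ 5 + 851832 * X ^ 4 + 2378820 * X ^ 3
        + 2330742 * X ^ 2) * hH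
    exact (mul_eq_zero.mp h1).resolve_left
      (mul_ne_zero (mul_ne_zero (by norm_num) (pow_ne_zero 2 hX0)) (pow_ne_zero 2 h7))
  -- its derivative
  have hQ : (-40 * X ^ 7 + 420 * X ^ 6 + 24660 * X ^ 5 + 280400 * X ^ 4 + 1456896 * X ^ 3 + 3901356 * X ^ 2
        + 5204004 * X + 2723520) * (2 * X ^ 3 + 15 * X ^ 2 + 25 * X) = 0 := by
    have h1 := congrArg D hP
    simp only [map_add, map_sub, map_neg, Derivation.leibniz, Derivation.leibniz_pow, ofNat_der,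
      smul_eq_mul, nsmul_eq_mul, mul_zero, add_zero, zero_add, map_zero, sub_zero] at h1
    push_cast at h1
    have h2 : u * ((-40 * X ^ 7 + 420 * X ^ 6 + 24660 * X ^ 5 + 280400 * X ^ 4 + 1456896 * X ^ 3 + 3901356 * X ^ 2
        + 5204004 * X + 2723520) * (2 * X ^ 3 + 15 * X ^ 2 + 25 * X)) = 0 := by
      linear_combination h1 - (-40 * X ^ 7 + 420 * X ^ 6 + 24660 * X ^ 5 + 280400 * X ^ 4 + 1456896 * X ^ 3 + 3901356 * X ^ 2
        + 5204004 * X + 2723520) * hX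
    exact (mul_eq_zero.mp h2).resolve_left hu0
  have hfin : (10213493931840810129890760883738660331520 : K) = 0 := by
    linear_combination (13131453806265145661504182852754960 * X ^ 9
        - 74195623635813695974628562552295040 * X ^ 8
        - 8777188168127227942273342141103418540 * X ^ 7
        - 131152342471067451974005383148139427700 * X ^ 6
        - 917014217975146397266664769243819262544 * X ^ 5
        - 3524336583486309069194964350456217895800 * X ^ 4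
        - 7597947320566972694341952524609464936660 * X ^ 3
        - 8559566848936535355238098355176701034660 * X ^ 2
        - 3894838146243003587677350312312361041600 * X
        + 8831863674234575796079475910696960) * hP + (-820715862891571603844011428297185 * X ^ 7
        + 12023669243262500433010388014193105 * X ^ 6
        + 643283234418530321545422217337704705 * X ^ 5
        + 7490766984421956485737534234375294635 * X ^ 4
        + 39561018698054515362498080379684541833 * X ^ 3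
        + 105220367093505026603208139253372854791 * X ^ 2
        + 135082347789489279941473442481522520551 * X
        + 66151317230194252857639522746230430685) * hQ
  exact absurd hfin (by norm_num)

theorem LT.no_eq [CharZero K] (T : LT K) (h : T.X = T.Y) : False := by
  have hY : T.Y = T.X := h.symm
  have hX := T.Y1
  have hr := T.r1
  have hg := T.g1
  have hr0 : rr T.X T.X = T.X ^ 2 + 4 * T.X := by
    unfold rr
    ring
  rw [hY, hr0] at hX hr hg
  have hsq : 4 * T.l * T.X * T.X = 4 * T.l * T.X ^ 2 := by ring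
  rw [hsq] at hg
  refine lta_alg T.e1 T.hX T.hu hX T.u1 ?_ hg
  simp only [map_add, Derivation.leibniz, Derivation.leibniz_pow, ofNat_der,
    smul_eq_mul, nsmul_eq_mul, mul_zero, add_zero, zero_add] at hr
  push_cast at hr
  linear_combination hr - 24 * T.u * (T.X + 2) * hX

end Pool.H60.LG
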