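import Pool.Agent.H60.LG.Defs

/-!
# The system `LT` has no solution with `X ≠ Y`

With `r = rr X Y`, `n = X Y`, `t = u^2`:
1. commutator on `u`: `Y e1 l - X e2 l = - u l (X - Y)(9 - r)`;
2. commutator on `r`: `4 r l = 324 t - 3`;
3. derivatives of 2 in 1: `4 n l^2 + 3 l + 6804 t^2 + 117 t - 1 = 0`;
4. derivative of 3 and `g1`, `g2`: the coefficient of `X`, divided by `l`:
   `4 r (13608 t^2 + 315 t + 1) + 3 (216 t + 1)(4 l n + 3) = 0`;
5. 3 times `r` is `4 r (6804 t^2 + 117 t - 1) + 3 (108 t - 1)(4 l n + 3) = 0`; so `t (108 t + 1) = 0`;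
6. `t` is constant, so `1 + 36 t + 4 l X = 1 + 36 t + 4 l Y = 0`, `l = 0`, against 2.
-/

namespace Pool.H60.LG

variable {K : Type} [Field K]

theorem ofNat_der (D : Derivation ℤ K K) (n : ℕ) [n.AtLeastTwo] :
    D (no_index (OfNat.ofNat n : K)) = 0 := by
  have h : (OfNat.ofNat n : K) = ((OfNat.ofNat n : ℕ) : K) := (Nat.cast_ofNat).symm
  rw [h]
  exact D.map_natCast _

/-- commutator on `u` -/
theorem LT.cu [CharZero K] (T : LT K) :
    T.Y * T.e1 T.l - T.X * T.e2 T.l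
      + T.u * T.l * (T.X - T.Y) * (9 - rr T.X T.Y) = 0 := by
  have h1 := congrArg T.e1 T.u2
  have h2 := congrArg T.e2 T.u1
  have h3 := T.comm T.u
  simp only [map_add, Derivation.leibniz, Derivation.leibniz_pow, ofNat_der,
    Derivation.map_one_eq_zero, smul_eq_mul, nsmul_eq_mul, mul_zero, add_zero, zero_add] at h1 h2
  push_cast at h1 h2
  have h4 : (4 : K) * (T.Y * T.e1 T.l - T.X * T.e2 T.l
      + T.u * T.l * (T.X - T.Y) * (9 - rr T.X T.Y)) = 0 := by
    linear_combination h2 - h1 + 12 * h3 - (6 * T.u + T.u * rr T.X T.Y) * T.u1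
      + (6 * T.u + T.u * rr T.X T.Y) * T.u2 - 4 * T.l * T.Y1 + 4 * T.l * T.X2
  exact (mul_eq_zero.mp h4).resolve_left (by norm_num)

/-- commutator on `r` -/
theorem LT.c6 [CharZero K] (T : LT K) (hne : T.X ≠ T.Y) :
    4 * rr T.X T.Y * T.l - 324 * T.u ^ 2 + 3 = 0 := by
  have h1 := congrArg T.e1 T.r2
  have h2 := congrArg T.e2 T.r1
  have h3 := T.comm (rr T.X T.Y)
  have h4 := T.g1
  have h5 := T.g2
  have h6 := T.cu
  have h7 := T.r1
  have h8 := T.r2
  have hu1 := T.u1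
  have hu2 := T.u2
  have hY1 := T.Y1
  have hX2 := T.X2
  have hr : rr T.X T.Y = T.X * T.Y + 2 * T.X + 2 * T.Y := rfl
  simp only [map_add, map_sub, map_neg, Derivation.leibniz, Derivation.leibniz_pow, ofNat_der,
    Derivation.map_one_eq_zero, smul_eq_mul, nsmul_eq_mul, mul_zero, add_zero, zero_add, sub_zero,
    neg_zero] at h1 h2 h4 h5
  push_cast at h1 h2 h4 h5
  set u := T.u
  set l := T.l
  set X := T.X
  set Y := T.Y
  set r := rr X Y
  have h9 : (X - Y) * (4 * r * l - 324 * u ^ 2 + 3) = 0 := by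
    linear_combination (-4) * (u * h1 - u * h2 - 12 * u ^ 2 * h3 - 3 * u * h4 + 3 * u * h5
      - 4 * r * u * h6 + (-36 * r * u ^ 3 - 4 * l * r * u - 3 * u) * hY1
      + (36 * r * u ^ 3 + 4 * l * r * u + 3 * u) * hX2
      + (-6 * Y * r * u ^ 2 + 2 * r ^ 2 * u ^ 2 - 6 * r * u ^ 2 - T.e2 r * u) * hu1
      + (6 * X * r * u ^ 2 - 2 * r ^ 2 * u ^ 2 + 6 * r * u ^ 2 + T.e1 r * u) * hu2
      + (-3 * Y * u ^ 2 + 3 * r * u ^ 2 - (1 / 4)) * h7
      + (3 * X * u ^ 2 - 3 * r * u ^ 2 + (1 / 4)) * h8)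
  exact (mul_eq_zero.mp h9).resolve_left (sub_ne_zero.mpr hne)

/-- derivatives of `c6` in `cu` -/
theorem LT.k1 [CharZero K] (T : LT K) (hne : T.X ≠ T.Y) :
    4 * T.X * T.Y * T.l ^ 2 + 3 * T.l + 6804 * T.u ^ 4 + 117 * T.u ^ 2 - 1 = 0 := by
  have hc6 := T.c6 hne
  have h10 := congrArg T.e1 hc6
  have h11 := congrArg T.e2 hc6
  have h6 := T.cu
  have h7 := T.r1
  have h8 := T.r2
  have hu1 := T.u1
  have hu2 := T.u2
  simp only [map_add, map_sub, map_neg, Derivation.leibniz, Derivation.leibniz_pow, ofNat_der,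
    Derivation.map_one_eq_zero, smul_eq_mul, nsmul_eq_mul, mul_zero, add_zero, zero_add, sub_zero,
    neg_zero, map_zero] at h10 h11
  push_cast at h10 h11
  set u := T.u
  set l := T.l
  set X := T.X
  set Y := T.Y
  set r := rr X Y
  have h9 : (X - Y) * (4 * X * Y * l ^ 2 + 3 * l + 6804 * u ^ 4 + 117 * u ^ 2 - 1) = 0 := by
    linear_combination (-1) * (4 * u * r * h6 - Y * u * h10 + X * u * h11 - 54 * Y * u ^ 2 * hu1
      + 54 * X * u ^ 2 * hu2 + (1 / 3) * Y * l * h7 - (1 / 3) * X * l * h8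
      + (X - Y) * (15 * u ^ 2 + 1 / 3) * hc6)
  exact (mul_eq_zero.mp h9).resolve_left (sub_ne_zero.mpr hne)

/-- the derivative of `k1` and `g1`, `g2` -/
theorem LT.k2 [CharZero K] (T : LT K) (hne : T.X ≠ T.Y) (hl : T.l ≠ 0) :
    4 * rr T.X T.Y * (13608 * T.u ^ 4 + 315 * T.u ^ 2 + 1)
      + 3 * (216 * T.u ^ 2 + 1) * (4 * T.l * T.X * T.Y + 3) = 0 := by
  have hc6 := T.c6 hne
  have hk1 := T.k1 hne
  have h10 := congrArg T.e1 hc6
  have h11 := congrArg T.e2 hc6
  have h12 := congrArg T.e1 hk1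
  have h13 := congrArg T.e2 hk1
  have h4 := T.g1
  have h5 := T.g2
  have h7 := T.r1
  have h8 := T.r2
  have hu1 := T.u1
  have hu2 := T.u2
  simp only [map_add, map_sub, map_neg, Derivation.leibniz, Derivation.leibniz_pow, ofNat_der,
    Derivation.map_one_eq_zero, smul_eq_mul, nsmul_eq_mul, mul_zero, add_zero, zero_add, sub_zero,
    neg_zero, map_zero] at h4 h5 h10 h11 h12 h13
  push_cast at h4 h5 h10 h11 h12 h13
  set u := T.u
  set l := T.l
  set X := T.X
  set Y := T.Y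
  set r := rr X Y
  have h9 : (X - Y) * (l * (4 * r * (13608 * u ^ 4 + 315 * u ^ 2 + 1)
      + 3 * (216 * u ^ 2 + 1) * (4 * l * X * Y + 3))) = 0 := by
    linear_combination 12 * (u * r * h12 - l * r * u * h4 - r * u * h13 + l * r * u * h5
      + (-X * Y * l * u - (3 / 4) * u) * h10 + (X * Y * l * u + (3 / 4) * u) * h11
      + (-54 * X * Y * l * u ^ 2 + 14 * l * r ^ 2 * u ^ 2 - 2268 * r * u ^ 4
        - (39 / 2) * r * u ^ 2 - (81 / 2) * u ^ 2) * hu1
      - (-54 * X * Y * l * u ^ 2 + 14 * l * r ^ 2 * u ^ 2 - 2268 * r * u ^ 4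
        - (39 / 2) * r * u ^ 2 - (81 / 2) * u ^ 2) * hu2
      + ((1 / 3) * X * Y * l ^ 2 + 7 * l * r * u ^ 2 + (1 / 4) * l) * h7
      - ((1 / 3) * X * Y * l ^ 2 + 7 * l * r * u ^ 2 + (1 / 4) * l) * h8
      - (X - Y) * l * ((1 / 3) * r * hk1 - 7 * r * u ^ 2 * hc6))
  exact (mul_eq_zero.mp ((mul_eq_zero.mp h9).resolve_left (sub_ne_zero.mpr hne))).resolve_left hl

theorem LT.not_const [CharZero K] (T : LT K) (hne : T.X ≠ T.Y) (h1 : T.e1 T.u = 0)
    (h2 : T.e2 T.u = 0) : False := by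
  have hc6 := T.c6 hne
  have hu1 := T.u1
  have hu2 := T.u2
  rw [h1] at hu1
  rw [h2] at hu2
  have h3 : (T.X - T.Y) * (4 * T.l) = 0 := by linear_combination hu2 - hu1
  have h4 := (mul_eq_zero.mp h3).resolve_left (sub_ne_zero.mpr hne)
  have hl : T.l = 0 := (mul_eq_zero.mp h4).resolve_left (by norm_num)
  rw [hl] at hu1 hc6
  have h5 : (12 : K) = 0 := by linear_combination hc6 - 9 * hu1
  exact absurd h5 (by norm_num)

theorem LT.not_sq [CharZero K] (T : LT K) (hne : T.X ≠ T.Y) {α β : ℤ} (hα : α ≠ 0)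
    (h : (α : K) * T.u ^ 2 + (β : K) = 0) : False := by
  have key : ∀ D : Derivation ℤ K K, D T.u = 0 := by
    intro D
    have h1 := congrArg D h
    simp only [map_add, Derivation.leibniz, Derivation.leibniz_pow, Derivation.map_intCast,
      smul_eq_mul, nsmul_eq_mul, mul_zero, add_zero, map_zero] at h1
    push_cast at h1
    have h2 : ((α : K) * 2 * T.u) * D T.u = 0 := by linear_combination h1
    refine (mul_eq_zero.mp h2).resolve_left ?_
    exact mul_ne_zero (mul_ne_zero (by exact_mod_cast hα) (by norm_num)) T.hu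
  exact T.not_const hne (key _) (key _)

theorem LT.no_ne [CharZero K] (T : LT K) (hne : T.X ≠ T.Y) : False := by
  have hc6 := T.c6 hne
  have hk1 := T.k1 hne
  by_cases hl : T.l = 0
  · refine T.not_sq hne (α := -324) (β := 3) (by norm_num) ?_
    rw [hl] at hc6
    push_cast
    linear_combination hc6
  by_cases hr : rr T.X T.Y = 0
  · refine T.not_sq hne (α := -324) (β := 3) (by norm_num) ?_
    rw [hr] at hc6
    push_cast
    linear_combination hc6
  have hk2 := T.k2 hne hl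
  have h1 : 1296 * (rr T.X T.Y * T.u ^ 2) * (108 * T.u ^ 2 + 1) = 0 := by
    linear_combination 3 * (216 * T.u ^ 2 + 1) * (4 * rr T.X T.Y * hk1
      - (4 * T.X * T.Y * T.l + 3) * hc6) - 3 * (108 * T.u ^ 2 - 1) * hk2
  have h2 := (mul_eq_zero.mp h1).resolve_left
    (mul_ne_zero (by norm_num) (mul_ne_zero hr (pow_ne_zero 2 T.hu)))
  refine T.not_sq hne (α := 108) (β := 1) (by norm_num) ?_
  push_cast
  linear_combination h2

end Pool.H60.LG
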