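import Pool.Agent.H60.LG.LSLT
import Pool.Agent.H60.LG.LTA
import Pool.Agent.H60.LG.LTF

/-!
# The system `LS` has only the solutions with `p = q = o = 0`
-/

namespace Pool.H60.LG

variable {K : Type} [Field K]

theorem LS.zero [CharZero K] (L : LS K) : L.p = 0 ∧ L.q = 0 ∧ L.o = 0 := by
  by_contra h
  obtain ⟨T⟩ := L.toLT h
  by_cases hXY : T.X = T.Y
  · exact T.no_eq hXY
  · exact T.no_ne hXY

end Pool.H60.LG
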