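import Pool.Agent.H60.LG.Defs

/-!
# Reduction of `LS` to `LT`

Put `X = a - 2`, `Y = b - 2`.  Suppose not all of `p`, `q`, `o` are zero.
1. `T1 - T2`: `X q = Y p`.
2. If `X = 0`: `a = 2`, so `e2 a = 0`: `p + 2 q - 4 o = 0`.  `Y p = 0` by 1.  If `p = 0`: `2 q + 3 o = 0` and `2 q = 4 o`,
   so `o = q = 0`, contradiction.  If `Y = 0`: `b = 2`, `e1 b = 0`: `q + 2 p - 4 o = 0`; with `2 p + 3 o + 2 q = 0`
   all are zero, contradiction.  In the same way `Y ≠ 0`.
3. Put `u = p/(3 X)`: `p = 3 u X`, `q = 3 u Y` (by 1), and `o = - u r` by `T1`, where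
   `r = rr X Y = a b - 4`.  `u ≠ 0` (else all are zero).
4. `X + 2 ≠ 0`: otherwise `a = 0`, `0 = e2 a = p`, so `u X = 0`.  In the same way `Y + 2 ≠ 0`.
5. Put `l = (5 - 84 u^2 r - 4 g)/(4 X Y)`, so `4 g = 5 - 84 u^2 r - 4 l X Y`.
6. `Y1` is `b1`, `X2` is `a2`.  `u1`: in `q1` put `q = 3 u Y`: `12 (Y e1 u + u e1 Y) = 3 - 4 g + b - 8 q o`, insert `Y1`
   and divide by `Y`.  `u2` in the same way from `p2`.  `r1`: in `o1` put `o = - u r`, insert `u1`.  `g1`, `g2` are the
   given ones.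
-/

namespace Pool.H60.LG

variable {K : Type} [Field K]

private theorem LSLT_n (D : Derivation ℤ K K) (n : ℕ) : D (n : K) = 0 := D.map_natCast n

private theorem LSLT_2 (D : Derivation ℤ K K) : D (2 : K) = 0 := by
  have h := LSLT_n D 2
  rwa [Nat.cast_ofNat] at h

private theorem LSLT_3 (D : Derivation ℤ K K) : D (3 : K) = 0 := by
  have h := LSLT_n D 3
  rwa [Nat.cast_ofNat] at h

private theorem LSLT_4 (D : Derivation ℤ K K) : D (4 : K) = 0 := by
  have h := LSLT_n D 4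
  rwa [Nat.cast_ofNat] at h

private theorem LSLT_5 (D : Derivation ℤ K K) : D (5 : K) = 0 := by
  have h := LSLT_n D 5
  rwa [Nat.cast_ofNat] at h

private theorem LSLT_mul (D : Derivation ℤ K K) (x y : K) : D (x * y) = x * D y + y * D x := by
  rw [D.leibniz, smul_eq_mul, smul_eq_mul]

private theorem LSLT_g (D : Derivation ℤ K K) (g : K) : D (5 - 4 * g) = -(4 * D g) := by
  rw [map_sub, LSLT_mul, LSLT_5, LSLT_4]
  ring

private theorem LSLT_sub (D : Derivation ℤ K K) (x : K) : D (x - 2) = D x := by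
  rw [map_sub, LSLT_2, sub_zero]

theorem LS.toLT [CharZero K] (L : LS K) (h : ¬(L.p = 0 ∧ L.q = 0 ∧ L.o = 0)) :
    Nonempty (LT K) := by
  obtain ⟨e1, e2, a, b, p, q, o, g, comm, hg, T1, T2, g1, g2, a2, b1, o1, o2, q1, p2⟩ := L
  simp only at h
  have hXq : (a - 2) * q = (b - 2) * p := by linear_combination T1 - T2
  have hX : a - 2 ≠ 0 := by
    intro hX
    have ha : a = 2 := sub_eq_zero.1 hX
    have h1 : p + 2 * q - 4 * o = 0 := by
      have h2 := a2
      rw [ha, LSLT_2] at h2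
      linear_combination -h2
    have h3 : 2 * p + 3 * o + 2 * q = 0 := by
      have h4 := T1
      rw [ha] at h4
      exact h4
    rw [hX, zero_mul] at hXq
    rcases mul_eq_zero.1 hXq.symm with hY | hp
    · have hb : b = 2 := sub_eq_zero.1 hY
      have h5 : q + 2 * p - 4 * o = 0 := by
        have h6 := b1
        rw [hb, LSLT_2] at h6
        linear_combination -h6
      have ho : o = 0 := by
        have h7 : (25 : K) * o = 0 := by linear_combination 3 * h3 - 2 * h1 - 2 * h5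
        exact (mul_eq_zero.1 h7).resolve_left (by norm_num)
      have hp : p = 0 := by
        have h8 : (3 : K) * p = 0 := by linear_combination 2 * h5 - h1 + 4 * ho
        exact (mul_eq_zero.1 h8).resolve_left (by norm_num)
      exact h ⟨hp, by linear_combination h5 - 2 * hp + 4 * ho, ho⟩
    · have ho : o = 0 := by
        have h7 : (7 : K) * o = 0 := by linear_combination h3 - h1 - hp
        exact (mul_eq_zero.1 h7).resolve_left (by norm_num)
      have hq : q = 0 := by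
        have h8 : (2 : K) * q = 0 := by linear_combination h1 - hp + 4 * ho
        exact (mul_eq_zero.1 h8).resolve_left (by norm_num)
      exact h ⟨hp, hq, ho⟩
  have hY : b - 2 ≠ 0 := by
    intro hY
    have hb : b = 2 := sub_eq_zero.1 hY
    have h1 : q + 2 * p - 4 * o = 0 := by
      have h2 := b1
      rw [hb, LSLT_2] at h2
      linear_combination -h2
    have h3 : 2 * q + 3 * o + 2 * p = 0 := by
      have h4 := T2
      rw [hb] at h4
      exact h4
    rw [hY, zero_mul] at hXq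
    have hq : q = 0 := (mul_eq_zero.1 hXq).resolve_left hX
    have ho : o = 0 := by
      have h7 : (7 : K) * o = 0 := by linear_combination h3 - h1 - hq
      exact (mul_eq_zero.1 h7).resolve_left (by norm_num)
    have hp : p = 0 := by
      have h8 : (2 : K) * p = 0 := by linear_combination h1 - hq + 4 * ho
      exact (mul_eq_zero.1 h8).resolve_left (by norm_num)
    exact h ⟨hp, hq, ho⟩
  obtain ⟨X, hXd⟩ : ∃ X : K, X = a - 2 := ⟨_, rfl⟩
  obtain ⟨Y, hYd⟩ : ∃ Y : K, Y = b - 2 := ⟨_, rfl⟩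
  have ha : a = X + 2 := by rw [hXd]; ring
  have hb : b = Y + 2 := by rw [hYd]; ring
  rw [← hXd] at hX hXq
  rw [← hYd] at hY hXq
  obtain ⟨u, hud⟩ : ∃ u : K, u = p / (3 * X) := ⟨_, rfl⟩
  have h3 : (3 : K) ≠ 0 := by norm_num
  have hp : p = 3 * u * X := by
    rw [hud]
    field_simp
  have hq : q = 3 * u * Y := by
    apply mul_left_cancel₀ hX
    rw [hXq, hp]
    ring
  have ho : o = -(u * rr X Y) := by
    apply mul_left_cancel₀ h3
    unfold rr
    rw [hp, hq, ha] at T1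
    linear_combination T1
  have hu : u ≠ 0 := by
    intro hu
    exact h ⟨by rw [hp, hu]; ring, by rw [hq, hu]; ring, by rw [ho, hu]; ring⟩
  have eX1 : ∀ D : Derivation ℤ K K, D a = D X := fun D => by rw [hXd, LSLT_sub]
  have eY1 : ∀ D : Derivation ℤ K K, D b = D Y := fun D => by rw [hYd, LSLT_sub]
  have hX2 : X + 2 ≠ 0 := by
    intro hX2
    have h4 := a2
    rw [ha, hX2, map_zero] at h4
    have h5 : p = 0 := by linear_combination -h4
    rw [hp] at h5
    exact mul_ne_zero (mul_ne_zero h3 hu) hX h5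
  have hY2 : Y + 2 ≠ 0 := by
    intro hY2
    have h4 := b1
    rw [hb, hY2, map_zero] at h4
    have h5 : q = 0 := by linear_combination -h4
    rw [hq] at h5
    exact mul_ne_zero (mul_ne_zero h3 hu) hY h5
  obtain ⟨l, hld⟩ : ∃ l : K, l = (5 - 84 * u ^ 2 * rr X Y - 4 * g) / (4 * X * Y) := ⟨_, rfl⟩
  have hl : 4 * l * X * Y = 5 - 84 * u ^ 2 * rr X Y - 4 * g := by
    rw [hld]
    field_simp
  have hgg : 84 * u ^ 2 * rr X Y + 4 * l * X * Y = 5 - 4 * g := by
    rw [hl]
    ring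
  have hY1 : e1 Y = u * (7 * rr X Y + (2 * rr X Y - 3) * Y) := by
    rw [← eY1, b1, hb, hq, hp, ho]
    unfold rr
    ring
  have hX2' : e2 X = u * (7 * rr X Y + (2 * rr X Y - 3) * X) := by
    rw [← eX1, a2, ha, hq, hp, ho]
    unfold rr
    ring
  have hu1 : 12 * e1 u = 1 + 36 * u ^ 2 + 4 * l * X := by
    apply mul_left_cancel₀ hY
    have h4 : e1 q = 3 * (u * e1 Y + Y * e1 u) := by
      rw [hq, LSLT_mul, LSLT_mul, LSLT_3]
      ring
    rw [h4, hY1, hb, hq, ho] at q1
    linear_combination q1 - hl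
  have hu2 : 12 * e2 u = 1 + 36 * u ^ 2 + 4 * l * Y := by
    apply mul_left_cancel₀ hX
    have h4 : e2 p = 3 * (u * e2 X + X * e2 u) := by
      rw [hp, LSLT_mul, LSLT_mul, LSLT_3]
      ring
    rw [h4, hX2', ha, hp, ho] at p2
    linear_combination p2 - hl
  have hr1 : 12 * u * e1 (rr X Y) = -4 * rr X Y - 9 - 3 * X - 288 * u ^ 2 * rr X Y
      - 36 * u ^ 2 * rr X Y * X + 12 * u ^ 2 * rr X Y ^ 2 - 4 * l * X * rr X Y - 12 * l * X * Y := by
    have h4 : e1 o = -(u * e1 (rr X Y) + rr X Y * e1 u) := by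
      rw [ho, map_neg, LSLT_mul]
    rw [h4, ha, hb, hp, ho] at o1
    have h5 : rr X Y = X * Y + 2 * X + 2 * Y := rfl
    linear_combination (-3) * o1 - rr X Y * hu1 + 3 * hl + 3 * h5
  have hr2 : 12 * u * e2 (rr X Y) = -4 * rr X Y - 9 - 3 * Y - 288 * u ^ 2 * rr X Y
      - 36 * u ^ 2 * rr X Y * Y + 12 * u ^ 2 * rr X Y ^ 2 - 4 * l * Y * rr X Y - 12 * l * X * Y := by
    have h4 : e2 o = -(u * e2 (rr X Y) + rr X Y * e2 u) := by
      rw [ho, map_neg, LSLT_mul]
    rw [h4, ha, hb, hq, ho] at o2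
    have h5 : rr X Y = X * Y + 2 * X + 2 * Y := rfl
    linear_combination (-3) * o2 - rr X Y * hu2 + 3 * hl + 3 * h5
  have hg5 : 5 - 84 * u ^ 2 * rr X Y - 4 * l * X * Y = 4 * g := by
    rw [hl]
    ring
  refine ⟨⟨e1, e2, X, Y, u, l, hX, hY, hX2, hY2, hu, ?_, ?_, hu1, hu2, hY1, hX2', hr1, hr2, ?_, ?_⟩⟩
  · rw [hg5]
    exact mul_ne_zero (by norm_num) hg
  · intro f
    rw [comm f, ho]
  · rw [hgg, LSLT_g, g1, hg5, hp, ho]
    ring
  · rw [hgg, LSLT_g, g2, hg5, hq, ho]
    ring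

end Pool.H60.LG
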