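import Pool.Agent.H60.PE.Defs

/-!
# Lagrangian surfaces
-/

namespace Pool.H60.LG

open Pool.Agent.H99.N2 (E2 E4 pd)
open Pool.H60.PE

/-- `X` is Lagrangian on `U` with respect to a constant linear map `J` which is skew for the inner
product of index `s` and satisfies `J^2 = -1` (an orthogonal complex structure) or `J^2 = 1` (an
anti-orthogonal para-complex structure): `J` maps tangent vectors to normal vectors. -/
def IsLagrangian (s : ℕ) (X : E2 → E4) (U : Set E2) : Prop :=
  ∃ J : E4 →ₗ[ℝ] E4, ((∀ v, J (J v) = v) ∨ (∀ v, J (J v) = -v)) ∧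
    (∀ v w, ip s (J v) w = -ip s v (J w)) ∧ ∀ x ∈ U, ip s (J (pd 0 X x)) (pd 1 X x) = 0

end Pool.H60.LG
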