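import Pool.Agent.H60.LG.TLag

/-!
# Lagrangian surfaces with `Δ H = c H` on a connected open set
-/

namespace Pool.H60.LG

open scoped ContDiff
open Matrix
open Pool.Agent.H99.N2 (E2 E4 pd contDiffOn_pd contDiffOn_comp)
open Pool.H60.PE

theorem main_lag (s : ℕ) {U : Set E2} (hU : IsOpen U) (hc : IsPreconnected U) {X : E2 → E4}
    (hX : IsSurface s X U) (hL : IsLagrangian s X U)
    (hH : ∃ c : ℝ, c ≠ 0 ∧ ∀ x ∈ U, lap s X (meanCurv s X) x = c • meanCurv s X x) :
    ∃ C : ℝ, (∀ x ∈ U, ip s (meanCurv s X x) (meanCurv s X x) = C) ∧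
      (C ≠ 0 → ∀ i : Fin 2, ∀ x ∈ U, nablaPerp s X i (meanCurv s X) x = 0) := by
  have hsm : ContDiffOn ℝ ∞ (meanCurv s X) U := contDiffOn_meanCurv hU hX
  set W : E2 → ℝ := fun x => ip s (meanCurv s X x) (meanCurv s X x) with hWdef
  have hW : ContDiffOn ℝ ∞ W U := contDiffOn_ip s hsm hsm
  have hf : Set.EqOn (fderiv ℝ W) 0 U := by
    intro x hx
    have hb : ∀ j : Fin 2, fderiv ℝ W x (EuclideanSpace.single j 1) = 0 := fun j =>
      lag_const s hU hX hL hH j x hx
    apply ContinuousLinearMap.coe_injective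
    refine (EuclideanSpace.basisFun (Fin 2) ℝ).toBasis.ext fun j => ?_
    simpa using hb j
  obtain ⟨a, ha⟩ := hU.exists_is_const_of_fderiv_eq_zero hc
    (hW.differentiableOn (by simp)) hf
  refine ⟨a, fun x hx => ha x hx, fun h0 => ?_⟩
  exact lag_par s hU hX hL hH fun x hx => by
    have h1 : ip s (meanCurv s X x) (meanCurv s X x) = a := ha x hx
    rw [h1]
    exact h0

end Pool.H60.LG
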