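import Pool.Agent.H60.NC.KEx
import Pool.Agent.H60.LG.KLag
import Pool.Agent.H60.LG.LMain

/-!
# Lagrangian surfaces with `Δ H = c H` over the differential field

Take the null frame `N` of `exists_nfr I` (`N.f1 = Σ a_i d_i`, `N.f2 = Σ b_i d_i`,
`δ = a_0 b_1 - a_1 b_0 ≠ 0`, `v1 = Σ a_i X_i`, `v2 = Σ b_i X_i`, `m = trK`).  `v1.(J v2) = δ X_0.(J X_1) = 0` because `J`
is skew (`x.(J x) = 0`).  If `J^2 = 1` replace `J` by `ι J` with `ι^2 = -1` (`I.D.root`; `d_i ι = 0` because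
`2 ι d_i ι = 0`).  `exists_ls` and `LS.zero` give `(dv f_k m).(J v_l) = 0`.  So `dv f_k m` is tangent (`v1`, `v2`,
`J v1`, `J v2` is a basis, see `KLag`, 1), hence `norK (dv d_i m) = 0` (`δ ≠ 0`).
-/

namespace Pool.H60.LG

open Matrix
open Pool.H60.PE Pool.H60.NC

variable {K : Type} [Field K]

/-- the normal part is orthogonal to the tangent vectors -/
private theorem TLagF_nor (D : DC K) (X : Fin 4 → K) (hg : gdet D X ≠ 0) (v : Fin 4 → K) :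
    dv (D.d 0) X ⬝ᵥ norK D X v = 0 ∧ dv (D.d 1) X ⬝ᵥ norK D X v = 0 := by
  have hs : gm D X 1 0 = gm D X 0 1 := dotProduct_comm _ _
  have h0 : ∀ k l, dv (D.d k) X ⬝ᵥ dv (D.d l) X = gm D X k l := fun k l => rfl
  have h1 : ∀ k, dv (D.d k) X ⬝ᵥ norK D X v = dv (D.d k) X ⬝ᵥ v -
      ((gi D X 0 0 * (dv (D.d 0) X ⬝ᵥ v)) * gm D X k 0 +
        (gi D X 0 1 * (dv (D.d 0) X ⬝ᵥ v)) * gm D X k 1 +
        ((gi D X 1 0 * (dv (D.d 1) X ⬝ᵥ v)) * gm D X k 0 +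
        (gi D X 1 1 * (dv (D.d 1) X ⬝ᵥ v)) * gm D X k 1)) := by
    intro k
    unfold norK
    rw [dotProduct_sub]
    simp only [Fin.sum_univ_two, dotProduct_add, dotProduct_smul, smul_eq_mul, h0]
  have e00 : gi D X 0 0 = gm D X 1 1 / gdet D X := rfl
  have e01 : gi D X 0 1 = -gm D X 0 1 / gdet D X := rfl
  have e10 : gi D X 1 0 = -gm D X 0 1 / gdet D X := rfl
  have e11 : gi D X 1 1 = gm D X 0 0 / gdet D X := rfl
  have hG : gdet D X = gm D X 0 0 * gm D X 1 1 - gm D X 0 1 ^ 2 := rfl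
  constructor
  · rw [h1 0, e00, e01, e10, e11]
    generalize dv (D.d 0) X ⬝ᵥ v = x0
    generalize dv (D.d 1) X ⬝ᵥ v = x1
    field_simp
    rw [hG]
    ring
  · rw [h1 1, e00, e01, e10, e11, hs]
    generalize dv (D.d 0) X ⬝ᵥ v = x0
    generalize dv (D.d 1) X ⬝ᵥ v = x1
    field_simp
    rw [hG]
    ring

/-- a vector orthogonal to a double null basis is zero -/
private theorem TLagF_basis [CharZero K] {v1 v2 n1 n2 d : Fin 4 → K} (o11 : v1 ⬝ᵥ v1 = 0)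
    (o12 : v1 ⬝ᵥ v2 = 2) (o22 : v2 ⬝ᵥ v2 = 0) (p11 : v1 ⬝ᵥ n1 = 0) (p12 : v1 ⬝ᵥ n2 = 0)
    (p21 : v2 ⬝ᵥ n1 = 0) (p22 : v2 ⬝ᵥ n2 = 0) (q11 : n1 ⬝ᵥ n1 = 0) (q12 : n1 ⬝ᵥ n2 = 2)
    (q22 : n2 ⬝ᵥ n2 = 0)
    (d1 : v1 ⬝ᵥ d = 0) (d2 : v2 ⬝ᵥ d = 0) (d3 : n1 ⬝ᵥ d = 0) (d4 : n2 ⬝ᵥ d = 0) : d = 0 := by
  have h2 : (2 : K) ≠ 0 := by norm_num
  have hG : (Matrix.of ![v1, v2, n1, n2]) * (Matrix.of ![v1, v2, n1, n2])ᵀ
      = Matrix.of ![![0, 2, 0, 0], ![2, 0, 0, 0], ![0, 0, 0, 2], ![0, 0, 2, 0]] := by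
    ext i j
    have e : ((Matrix.of ![v1, v2, n1, n2]) * (Matrix.of ![v1, v2, n1, n2])ᵀ) i j
        = (![v1, v2, n1, n2] i) ⬝ᵥ (![v1, v2, n1, n2] j) := by
      rw [Matrix.mul_apply]
      rfl
    rw [e]
    fin_cases i <;> fin_cases j <;>
      simp [o11, o12, o22, p11, p12, p21, p22, q11, q12, q22, dotProduct_comm v2 v1,
        dotProduct_comm n1 v1, dotProduct_comm n1 v2, dotProduct_comm n2 v1, dotProduct_comm n2 v2,
        dotProduct_comm n2 n1]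
  have hH : (Matrix.of ![![0, 2, 0, 0], ![2, 0, 0, 0], ![0, 0, 0, 2], ![0, 0, 2, 0]] :
      Matrix (Fin 4) (Fin 4) K) *
      Matrix.of ![![0, 2⁻¹, 0, 0], ![2⁻¹, 0, 0, 0], ![0, 0, 0, 2⁻¹], ![0, 0, 2⁻¹, 0]] = 1 := by
    ext i j
    fin_cases i <;> fin_cases j <;>
      simp [Matrix.mul_apply, Fin.sum_univ_four, h2]
  have h1 : (Matrix.of ![v1, v2, n1, n2]) * ((Matrix.of ![v1, v2, n1, n2])ᵀ *
      Matrix.of ![![0, 2⁻¹, 0, 0], ![2⁻¹, 0, 0, 0], ![0, 0, 0, 2⁻¹], ![0, 0, 2⁻¹, 0]]) = 1 := by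
    rw [← Matrix.mul_assoc, hG, hH]
  have h3 := mul_eq_one_comm.mp h1
  have h4 : (Matrix.of ![v1, v2, n1, n2]).mulVec d = 0 := by
    funext i
    fin_cases i
    · exact d1
    · exact d2
    · exact d3
    · exact d4
  have h5 : (((Matrix.of ![v1, v2, n1, n2])ᵀ *
      Matrix.of ![![0, 2⁻¹, 0, 0], ![2⁻¹, 0, 0, 0], ![0, 0, 0, 2⁻¹], ![0, 0, 2⁻¹, 0]]) *
      (Matrix.of ![v1, v2, n1, n2])).mulVec d = 0 := by
    rw [← Matrix.mulVec_mulVec, h4, Matrix.mulVec_zero]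
  rw [h3, Matrix.one_mulVec] at h5
  exact h5

private theorem TLagF_skew {J : Matrix (Fin 4) (Fin 4) K} (ht : Jᵀ = -J) (x y : Fin 4 → K) :
    x ⬝ᵥ (J *ᵥ y) = -(y ⬝ᵥ (J *ᵥ x)) := by
  rw [dotProduct_mulVec, ← mulVec_transpose, ht, neg_mulVec, neg_dotProduct,
    dotProduct_comm (J *ᵥ x) y]

private theorem TLagF_self [CharZero K] {J : Matrix (Fin 4) (Fin 4) K} (ht : Jᵀ = -J)
    (x : Fin 4 → K) : x ⬝ᵥ (J *ᵥ x) = 0 := by
  have h := TLagF_skew ht x x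
  have h2 : (2 : K) * (x ⬝ᵥ (J *ᵥ x)) = 0 := by linear_combination h
  exact (mul_eq_zero.1 h2).resolve_left (by norm_num)

private theorem TLagF_iso {J : Matrix (Fin 4) (Fin 4) K} (ht : Jᵀ = -J) (hJ : J * J = -1)
    (x y : Fin 4 → K) : (J *ᵥ x) ⬝ᵥ (J *ᵥ y) = x ⬝ᵥ y := by
  rw [TLagF_skew ht (J *ᵥ x) y, mulVec_mulVec, hJ, neg_mulVec, one_mulVec, dotProduct_neg, neg_neg,
    dotProduct_comm]

/-- the case `J^2 = -1` -/
private theorem TLagF_core [CharZero K] (I : Im0 K) (J : Matrix (Fin 4) (Fin 4) K)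
    (h1 : ∀ k i j, I.D.d k (J i j) = 0) (ht : Jᵀ = -J) (hJ : J * J = -1)
    (hL : dv (I.D.d 0) I.X ⬝ᵥ (J *ᵥ dv (I.D.d 1) I.X) = 0)
    (hW : trK I.D I.X ⬝ᵥ trK I.D I.X ≠ 0) :
    ∀ i, norK I.D I.X (dv (I.D.d i) (trK I.D I.X)) = 0 := by
  obtain ⟨N, a, b, ha, hb, hab, hv1, hv2, hm, -⟩ := exists_nfr I
  have hdv1 : ∀ v, dv N.f1 v = a 0 • dv (I.D.d 0) v + a 1 • dv (I.D.d 1) v := by
    intro v
    funext k
    exact ha (v k)
  have hdv2 : ∀ v, dv N.f2 v = b 0 • dv (I.D.d 0) v + b 1 • dv (I.D.d 1) v := by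
    intro v
    funext k
    exact hb (v k)
  obtain ⟨X0, hX0⟩ : ∃ X0, X0 = dv (I.D.d 0) I.X := ⟨_, rfl⟩
  obtain ⟨X1, hX1⟩ : ∃ X1, X1 = dv (I.D.d 1) I.X := ⟨_, rfl⟩
  have e1 : N.v1 = a 0 • X0 + a 1 • X1 := by rw [hv1, hdv1, hX0, hX1]
  have e2 : N.v2 = b 0 • X0 + b 1 • X1 := by rw [hv2, hdv2, hX0, hX1]
  rw [← hX0, ← hX1] at hL
  have s00 : X0 ⬝ᵥ (J *ᵥ X0) = 0 := TLagF_self ht X0
  have s11 : X1 ⬝ᵥ (J *ᵥ X1) = 0 := TLagF_self ht X1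
  have s10 : X1 ⬝ᵥ (J *ᵥ X0) = 0 := by rw [TLagF_skew ht, hL, neg_zero]
  have hpair : ∀ x y z w : K, (x • X0 + y • X1) ⬝ᵥ (J *ᵥ (z • X0 + w • X1)) = 0 := by
    intro x y z w
    rw [mulVec_add, mulVec_smul, mulVec_smul]
    simp only [add_dotProduct, dotProduct_add, smul_dotProduct, dotProduct_smul, smul_eq_mul, s00,
      s11, s10, hL]
    ring
  have p12 : N.v1 ⬝ᵥ (J *ᵥ N.v2) = 0 := by rw [e1, e2]; exact hpair _ _ _ _
  have p21 : N.v2 ⬝ᵥ (J *ᵥ N.v1) = 0 := by rw [e1, e2]; exact hpair _ _ _ _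
  have hJ1 : ∀ i j, N.f1 (J i j) = 0 := by
    intro i j
    rw [ha, h1, h1]
    ring
  have hJ2 : ∀ i j, N.f2 (J i j) = 0 := by
    intro i j
    rw [hb, h1, h1]
    ring
  obtain ⟨L, l1, l2, l3, l4⟩ := exists_ls N J hJ1 hJ2 ht hJ p12 (by rw [hm]; exact hW)
  obtain ⟨z1, z2, z3⟩ := L.zero
  rw [z1, zero_mul] at l1
  rw [z3, zero_mul] at l2 l3
  rw [z2, zero_mul] at l4
  obtain ⟨m, hmm⟩ : ∃ m, m = trK I.D I.X := ⟨_, rfl⟩
  rw [hm, ← hmm] at l1 l2 l3 l4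
  rw [hdv1, add_dotProduct, smul_dotProduct, smul_dotProduct, smul_eq_mul, smul_eq_mul] at l1 l2
  rw [hdv2, add_dotProduct, smul_dotProduct, smul_dotProduct, smul_eq_mul, smul_eq_mul] at l3 l4
  have hsol : ∀ x y : K, a 0 * x + a 1 * y = 0 → b 0 * x + b 1 * y = 0 → x = 0 ∧ y = 0 := by
    intro x y h2 h3
    constructor
    · have h4 : (a 0 * b 1 - a 1 * b 0) * x = 0 := by linear_combination b 1 * h2 - a 1 * h3
      exact (mul_eq_zero.1 h4).resolve_left hab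
    · have h4 : (a 0 * b 1 - a 1 * b 0) * y = 0 := by linear_combination a 0 * h3 - b 0 * h2
      exact (mul_eq_zero.1 h4).resolve_left hab
  obtain ⟨r0, r1⟩ := hsol _ _ l1 l3
  obtain ⟨t0, t1⟩ := hsol _ _ l2 l4
  have hall : ∀ i, dv (I.D.d i) m ⬝ᵥ (J *ᵥ N.v1) = 0 ∧ dv (I.D.d i) m ⬝ᵥ (J *ᵥ N.v2) = 0 := by
    intro i
    fin_cases i
    · exact ⟨r0, t0⟩
    · exact ⟨r1, t1⟩
  intro i
  rw [← hmm]
  obtain ⟨u1, u2⟩ := hall i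
  obtain ⟨y, hy⟩ : ∃ y, y = dv (I.D.d i) m := ⟨_, rfl⟩
  rw [← hy] at u1 u2 ⊢
  obtain ⟨w0, w1⟩ := TLagF_nor I.D I.X I.gdet_ne y
  have hnorJ : ∀ z w : K, (J *ᵥ (z • X0 + w • X1)) ⬝ᵥ norK I.D I.X y =
      (J *ᵥ (z • X0 + w • X1)) ⬝ᵥ y := by
    intro z w
    have g0 : (J *ᵥ (z • X0 + w • X1)) ⬝ᵥ X0 = 0 := by
      rw [dotProduct_comm]
      have h2 := hpair 1 0 z w
      rwa [one_smul, zero_smul, add_zero] at h2
    have g1 : (J *ᵥ (z • X0 + w • X1)) ⬝ᵥ X1 = 0 := by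
      rw [dotProduct_comm]
      have h2 := hpair 0 1 z w
      rwa [one_smul, zero_smul, zero_add] at h2
    rw [hX0, hX1] at g0 g1
    unfold norK
    rw [dotProduct_sub]
    simp only [Fin.sum_univ_two, dotProduct_add, dotProduct_smul, smul_eq_mul]
    rw [← hX0, ← hX1] at g0 g1 ⊢
    rw [g0, g1]
    ring
  refine TLagF_basis (v1 := N.v1) (v2 := N.v2) (n1 := J *ᵥ N.v1) (n2 := J *ᵥ N.v2) N.o11 N.o12 N.o22
    (TLagF_self ht _) p12 p21 (TLagF_self ht _) ?_ ?_ ?_ ?_ ?_ ?_ ?_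
  · rw [TLagF_iso ht hJ, N.o11]
  · rw [TLagF_iso ht hJ, N.o12]
  · rw [TLagF_iso ht hJ, N.o22]
  · rw [e1, add_dotProduct, smul_dotProduct, smul_dotProduct, hX0, hX1, w0, w1]
    simp
  · rw [e2, add_dotProduct, smul_dotProduct, smul_dotProduct, hX0, hX1, w0, w1]
    simp
  · rw [e1, hnorJ, ← e1, dotProduct_comm, u1]
  · rw [e2, hnorJ, ← e2, dotProduct_comm, u2]

theorem lag_field {K : Type} [Field K] [CharZero K] (I : Im0 K) (J : Matrix (Fin 4) (Fin 4) K)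
    (h1 : ∀ k i j, I.D.d k (J i j) = 0) (ht : Jᵀ = -J) (hJ : J * J = -1 ∨ J * J = 1)
    (hL : dv (I.D.d 0) I.X ⬝ᵥ (J *ᵥ dv (I.D.d 1) I.X) = 0)
    (hW : trK I.D I.X ⬝ᵥ trK I.D I.X ≠ 0) :
    ∀ i, norK I.D I.X (dv (I.D.d i) (trK I.D I.X)) = 0 := by
  rcases hJ with hJ | hJ
  · exact TLagF_core I J h1 ht hJ hL hW
  · obtain ⟨ι, hι⟩ := I.D.root (-1)
    have hι0 : ι ≠ 0 := by
      rintro rfl
      norm_num at hι
    have hdι : ∀ k, I.D.d k ι = 0 := by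
      intro k
      have h2 : I.D.d k (ι ^ 2) = 0 := by rw [← hι, map_neg, Derivation.map_one_eq_zero, neg_zero]
      rw [pow_two, Derivation.leibniz, smul_eq_mul] at h2
      have h3 : (2 * ι) * I.D.d k ι = 0 := by linear_combination h2
      exact (mul_eq_zero.1 h3).resolve_left (mul_ne_zero (by norm_num) hι0)
    refine TLagF_core I (ι • J) ?_ ?_ ?_ ?_ hW
    · intro k i j
      rw [Matrix.smul_apply, smul_eq_mul, Derivation.leibniz, h1, hdι]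
      simp
    · rw [transpose_smul, ht, smul_neg]
    · rw [smul_mul_smul_comm, hJ, ← pow_two, ← hι, neg_smul, one_smul]
    · rw [smul_mulVec, dotProduct_smul, hL, smul_zero]

end Pool.H60.LG
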