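import Pool.Agent.H60.PE.Main
import Pool.Agent.H60.NC.TIso
import Pool.Agent.H60.LG.LagDef
import Pool.Agent.H60.LG.TLagF

/-!
# Lagrangian surfaces with `Δ H = c H`

`lag_par`.  As `rod_const` in `NC/TRod` and `circ_const` in `NC/TCirc` (whose private lemmas on `Im0` may be copied): if
`normalPart s X x0 (pd i (meanCurv s X) x0) ≠ 0`, some component `k` is not `0` at `x0`; restrict to the open
set `Om` of `U` where the function `N_k x = normalPart s X x (pd i (meanCurv s X) x) k` is not `0`, take the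
differential field of `Om` (`exists_cbr`) and the `Im0` with `D = B.D`, `X = B.Φ s X`.  The matrix `J_K` has the entries
`eta_i * φ(fun _ => J_ij) * eta_j^(-1)` (`J_ij` = `i`-th component of `J e_j`, `e_j` the standard basis); it is
killed by the derivations (`const_der`, `eta_der`), `J_K (Φ f) = Φ (J f)`; skew: `ip s (J e_i) e_j = -ip s e_i (J e_j)` says
`sgn_j J_ji = -sgn_i J_ij`, and `eta_i^2 = φ(sgn_i)`; `J_K^2 = ±1`.  `lag_field` gives
`norK (d_i (trK X)) = 0`, that is `Φ(N) = 0` (`Φ_normalPart`, `Φ_meanCurv`, factor 2), against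
`B.ne` for `N_k`.  (`trK ⬝ᵥ trK ≠ 0` from `hW` in the same way.)

`lag_const`: if `pd i W ≠ 0` at `x0`, restrict to the open set of `U` where `pd i W ≠ 0` and `W ≠ 0` (nonempty: if `W = 0`
near `x0` then `pd i W = 0`), apply `lag_par` there: `pd i W = 2 <pd i H, H> = 2 <(pd i H)^perp, H> = 0`.
-/

namespace Pool.H60.LG

open scoped ContDiff
open Matrix
open Pool.Agent.H99.N2 (E2 E4 pd contDiffOn_pd contDiffOn_comp)
open Pool.H60.PE Pool.H60.NC

section field

variable {s : ℕ} {Om : Set E2} {K : Type} [Field K] [CharZero K]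

/-- a surface with `Δ H = c H` over the differential field -/
private theorem tlag_im0 (B : CBr Om K) (hO : IsOpen Om) (hne : Om.Nonempty) {X : E2 → E4}
    (hX : IsSurface s X Om) {c : ℝ} (hc : c ≠ 0)
    (hH : ∀ x ∈ Om, lap s X (meanCurv s X) x = c • meanCurv s X x) :
    ∃ I : Im0 K, I.D = B.D ∧ I.X = B.Φ s X := by
  have hm := contDiffOn_meanCurv hO hX
  refine ⟨⟨B.D, B.Φ s X, delK B s X, B.φ (fun _ => c), delK_pow B hO hX, delK_ne B hO hX,
    B.const_ne hne hc, B.const_der c, ?_⟩, rfl, rfl⟩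
  intro k
  have h1 : B.Φ s (lap s X (meanCurv s X)) = B.φ (fun _ => c) • B.Φ s (meanCurv s X) := by
    rw [← B.Φ_smul s (contDiffOn_const (c := c)) hm]
    exact B.Φ_congr s (contDiffOn_lap hO hX hm) ((contDiffOn_const (c := c)).smul hm) hH
  have h2 := Φ_lap B hO hX hm k
  rw [h1] at h2
  rw [← Φ_meanCurv B hO hX]
  simp only [Pi.smul_apply, smul_eq_mul] at h2 ⊢
  have hlin : ∀ a : K, lapK B.D (B.Φ s X) (delK B s X) (2 * a)
      = 2 * lapK B.D (B.Φ s X) (delK B s X) a := by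
    intro a
    have h2a : ∀ (j : Fin 2) (b : K), B.D.d j (2 * b) = 2 * B.D.d j b := by
      intro j b
      rw [two_mul, map_add, two_mul]
    simp only [lapK, h2a]
    have : ∀ i : Fin 2, B.D.d i (∑ j, delK B s X * gi B.D (B.Φ s X) i j * (2 * B.D.d j a))
        = 2 * B.D.d i (∑ j, delK B s X * gi B.D (B.Φ s X) i j * B.D.d j a) := by
      intro i
      rw [← h2a, Finset.mul_sum]
      congr 1
      exact Finset.sum_congr rfl fun j _ => by ring
    simp only [this, ← Finset.mul_sum]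
    ring
  rw [hlin, ← h2]
  ring

omit [CharZero K] in
private theorem tlag_dv2 (d : Derivation ℤ K K) (v : Fin 4 → K) :
    dv d ((2 : K) • v) = (2 : K) • dv d v := by
  funext k
  change d (2 * v k) = 2 * d (v k)
  rw [two_mul, map_add, two_mul]

omit [CharZero K] in
private theorem tlag_nor2 (D : DC K) (X v : Fin 4 → K) :
    norK D X ((2 : K) • v) = (2 : K) • norK D X v := by
  unfold norK
  funext k
  simp only [Fin.sum_univ_two, dotProduct_smul, Pi.sub_apply, Pi.add_apply, Pi.smul_apply,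
    smul_eq_mul]
  ring

/-- a linear map in coordinates -/
private theorem tlag_app (J : E4 →ₗ[ℝ] E4) (v : E4) (i : Fin 4) :
    J v i = ∑ j, J (EuclideanSpace.single j 1) i * v j := by
  have h := (EuclideanSpace.basisFun (Fin 4) ℝ).sum_repr v
  have h2 : J v = ∑ j, v j • J (EuclideanSpace.single j 1) := by
    conv_lhs => rw [← h]
    rw [map_sum]
    refine Finset.sum_congr rfl fun j _ => ?_
    rw [map_smul]
    simp
  rw [h2, WithLp.ofLp_sum, Finset.sum_apply]
  refine Finset.sum_congr rfl fun j _ => ?_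
  rw [PiLp.smul_apply, smul_eq_mul, mul_comm]

/-- the matrix of a linear map over the differential field -/
private noncomputable def tlag_mat (B : CBr Om K) (s : ℕ) (J : E4 →ₗ[ℝ] E4) :
    Matrix (Fin 4) (Fin 4) K :=
  Matrix.of fun i j => B.eta s i * B.φ (fun _ => J (EuclideanSpace.single j 1) i) * (B.eta s j)⁻¹

omit [CharZero K] in
private theorem tlag_mat_apply (B : CBr Om K) (s : ℕ) (J : E4 →ₗ[ℝ] E4) (i j : Fin 4) :
    tlag_mat B s J i j
      = B.eta s i * B.φ (fun _ => J (EuclideanSpace.single j 1) i) * (B.eta s j)⁻¹ := rfl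

private theorem tlag_mat_der (B : CBr Om K) (s : ℕ) (J : E4 →ₗ[ℝ] E4) (k : Fin 2) (i j : Fin 4) :
    B.D.d k (tlag_mat B s J i j) = 0 := by
  rw [tlag_mat_apply, Derivation.leibniz, Derivation.leibniz, Derivation.leibniz_inv,
    B.eta_der, B.eta_der, B.const_der]
  simp

private theorem tlag_smooth (J : E4 →ₗ[ℝ] E4) {f : E2 → E4} (hf : ContDiffOn ℝ ∞ f Om) :
    ContDiffOn ℝ ∞ (fun x => J (f x)) Om :=
  (LinearMap.toContinuousLinearMap J).contDiff.comp_contDiffOn hf

private theorem tlag_mat_mul (B : CBr Om K) (s : ℕ) (J : E4 →ₗ[ℝ] E4) {f : E2 → E4}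
    (hf : ContDiffOn ℝ ∞ f Om) : tlag_mat B s J *ᵥ B.Φ s f = B.Φ s (fun x => J (f x)) := by
  funext i
  have e : (fun x => J (f x) i) = fun x => ∑ j, J (EuclideanSpace.single j 1) i * f x j := by
    funext x
    exact tlag_app J (f x) i
  change ∑ j, tlag_mat B s J i j * B.Φ s f j = B.eta s i * B.φ (fun x => J (f x) i)
  rw [e, B.sum Finset.univ (fun j x => J (EuclideanSpace.single j 1) i * f x j)
    (fun j _ => contDiffOn_const.mul (contDiffOn_comp hf j)), Finset.mul_sum]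
  refine Finset.sum_congr rfl fun j _ => ?_
  rw [tlag_mat_apply, B.mul _ _ contDiffOn_const (contDiffOn_comp hf j)]
  change _ * (B.eta s j * B.φ (fun x => f x j)) = _
  have h := B.eta_ne s j
  field_simp

private theorem tlag_mat_sq (B : CBr Om K) (s : ℕ) (J : E4 →ₗ[ℝ] E4) (i k : Fin 4) :
    (tlag_mat B s J * tlag_mat B s J) i k
      = B.eta s i * B.φ (fun _ => J (J (EuclideanSpace.single k 1)) i) * (B.eta s k)⁻¹ := by
  have e : (fun _ : E2 => J (J (EuclideanSpace.single k 1)) i)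
      = fun _ => ∑ j, J (EuclideanSpace.single j 1) i * J (EuclideanSpace.single k 1) j := by
    funext x
    exact tlag_app J _ i
  have e2 := B.sum (Finset.univ : Finset (Fin 4))
    (fun (j : Fin 4) (_ : E2) =>
      J (EuclideanSpace.single j 1) i * J (EuclideanSpace.single k 1) j)
    (fun j _ => contDiffOn_const)
  rw [e, e2, Finset.mul_sum, Finset.sum_mul, Matrix.mul_apply]
  refine Finset.sum_congr rfl fun j _ => ?_
  rw [tlag_mat_apply, tlag_mat_apply, B.mul (fun _ => J (EuclideanSpace.single j 1) i)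
    (fun _ => J (EuclideanSpace.single k 1) j) contDiffOn_const contDiffOn_const]
  have h := B.eta_ne s j
  field_simp

private theorem tlag_one (B : CBr Om K) (s : ℕ) (i k : Fin 4) :
    B.eta s i * B.φ (fun _ => (EuclideanSpace.single k (1 : ℝ) : E4) i) * (B.eta s k)⁻¹
      = (1 : Matrix (Fin 4) (Fin 4) K) i k := by
  by_cases h : i = k
  · subst h
    have h1 := B.one
    simp only [PiLp.single_apply, if_true, h1, Matrix.one_apply_eq, mul_one]
    exact mul_inv_cancel₀ (B.eta_ne s i)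
  · have h0 := B.zero
    simp only [PiLp.single_apply, h, if_false, h0, Matrix.one_apply_ne h, mul_zero, zero_mul]

private theorem tlag_sq (B : CBr Om K) (s : ℕ) (J : E4 →ₗ[ℝ] E4)
    (hJ : (∀ v, J (J v) = v) ∨ (∀ v, J (J v) = -v)) :
    tlag_mat B s J * tlag_mat B s J = -1 ∨ tlag_mat B s J * tlag_mat B s J = 1 := by
  rcases hJ with hJ | hJ
  · right
    ext i k
    rw [tlag_mat_sq, hJ, tlag_one]
  · left
    ext i k
    rw [tlag_mat_sq, hJ, Matrix.neg_apply, ← tlag_one B s i k]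
    have e : (fun _ : E2 => (-(EuclideanSpace.single k (1 : ℝ) : E4)) i)
        = fun _ => -((EuclideanSpace.single k (1 : ℝ) : E4) i) := by
      funext x
      rw [PiLp.neg_apply]
    rw [e, B.neg contDiffOn_const]
    ring

omit [CharZero K] in
private theorem tlag_ips (s : ℕ) (v : E4) (j : Fin 4) :
    ip s v (EuclideanSpace.single j 1) = sgn s j * v j := by
  unfold ip
  rw [Finset.sum_eq_single j]
  · simp
  · intro k _ hk
    simp [hk]
  · intro h
    exact absurd (Finset.mem_univ j) h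

private theorem tlag_skew (B : CBr Om K) (s : ℕ) (J : E4 →ₗ[ℝ] E4)
    (hJ : ∀ v w, ip s (J v) w = -ip s v (J w)) : (tlag_mat B s J)ᵀ = -tlag_mat B s J := by
  ext i j
  rw [Matrix.transpose_apply, Matrix.neg_apply, tlag_mat_apply, tlag_mat_apply]
  have h1 := hJ (EuclideanSpace.single i 1) (EuclideanSpace.single j 1)
  rw [tlag_ips, ip_comm, tlag_ips] at h1
  have h2 : B.φ (fun _ => sgn s j * J (EuclideanSpace.single i 1) j)
      = -B.φ (fun _ => sgn s i * J (EuclideanSpace.single j 1) i) := by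
    rw [← B.neg contDiffOn_const]
    congr 1
    funext x
    exact h1
  rw [B.φ_sgn s j contDiffOn_const, B.φ_sgn s i contDiffOn_const] at h2
  have hi := B.eta_ne s i
  have hj := B.eta_ne s j
  field_simp
  linear_combination h2

private theorem tlag_nor (B : CBr Om K) (hO : IsOpen Om) (hne : Om.Nonempty) {X : E2 → E4}
    (hX : IsSurface s X Om) (hs : IsLagrangian s X Om) {c : ℝ} (hc : c ≠ 0)
    (hH : ∀ x ∈ Om, lap s X (meanCurv s X) x = c • meanCurv s X x)
    (hW : B.φ (fun x => ip s (meanCurv s X x) (meanCurv s X x)) ≠ 0) (i : Fin 2) :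
    norK B.D (B.Φ s X) (dv (B.D.d i) (B.Φ s (meanCurv s X))) = 0 := by
  obtain ⟨I, hD, hIX⟩ := tlag_im0 B hO hne hX hc hH
  obtain ⟨J, hJ1, hJ2, hJ3⟩ := hs
  have hm := contDiffOn_meanCurv hO hX
  have sX : ∀ j : Fin 2, ContDiffOn ℝ ∞ (pd j X) Om := fun j => contDiffOn_pd hO hX.1 j
  have key := lag_field I (tlag_mat B s J)
    (by rw [hD]; exact tlag_mat_der B s J) (tlag_skew B s J hJ2) (tlag_sq B s J hJ1) ?_ ?_ i
  · rw [hD, hIX, ← Φ_meanCurv B hO hX, tlag_dv2, tlag_nor2] at key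
    exact (smul_eq_zero.1 key).resolve_left two_ne_zero
  · rw [hD, hIX, ← B.Φ_pd s hO hX.1 0, ← B.Φ_pd s hO hX.1 1, tlag_mat_mul B s J (sX 1),
      ← B.φ_ip s (sX 0) (tlag_smooth J (sX 1)), ← B.zero]
    refine B.congr _ _ (contDiffOn_ip s (sX 0) (tlag_smooth J (sX 1))) contDiffOn_const ?_
    intro x hx
    have h1 := hJ2 (pd 0 X x) (pd 1 X x)
    rw [hJ3 x hx] at h1
    linarith
  · rw [hD, hIX, ← Φ_meanCurv B hO hX, smul_dotProduct, dotProduct_smul, smul_eq_mul,
      smul_eq_mul, ← B.φ_ip s hm hm]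
    exact mul_ne_zero two_ne_zero (mul_ne_zero two_ne_zero hW)

end field

private theorem tlag_ipH {s : ℕ} {X : E2 → E4} {x : E2} (hx : (metric s X x).det ≠ 0)
    (j : Fin 2) : ip s (pd j X x) (meanCurv s X x) = 0 := by
  unfold meanCurv
  simp only [Fin.sum_univ_two, ip_add, ip_smul, ip_normalPart s X hx, mul_zero, add_zero]

private theorem tlag_mono {s : ℕ} {X : E2 → E4} {U Om : Set E2} (h : Om ⊆ U)
    (hs : IsLagrangian s X U) : IsLagrangian s X Om := by
  obtain ⟨J, h1, h2, h3⟩ := hs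
  exact ⟨J, h1, h2, fun x hx => h3 x (h hx)⟩

theorem lag_par (s : ℕ) {U : Set E2} (hU : IsOpen U) {X : E2 → E4}
    (hX : IsSurface s X U) (hs : IsLagrangian s X U)
    (hH : ∃ c : ℝ, c ≠ 0 ∧ ∀ x ∈ U, lap s X (meanCurv s X) x = c • meanCurv s X x)
    (hW : ∀ x ∈ U, ip s (meanCurv s X x) (meanCurv s X x) ≠ 0) :
    ∀ i : Fin 2, ∀ x ∈ U, nablaPerp s X i (meanCurv s X) x = 0 := by
  obtain ⟨c, hc0, hH⟩ := hH
  have hsm : ContDiffOn ℝ ∞ (meanCurv s X) U := contDiffOn_meanCurv hU hX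
  intro i x0 hx0
  by_contra hcon
  have hk : ∃ k : Fin 4, nablaPerp s X i (meanCurv s X) x0 k ≠ 0 := by
    by_contra h
    push Not at h
    apply hcon
    ext k
    exact h k
  obtain ⟨k, hk⟩ := hk
  set Nk : E2 → ℝ := fun x => nablaPerp s X i (meanCurv s X) x k with hNk
  have hN : ContDiffOn ℝ ∞ (nablaPerp s X i (meanCurv s X)) U :=
    contDiffOn_normalPart hU hX (contDiffOn_pd hU hsm i)
  have hNs : ContDiffOn ℝ ∞ Nk U := contDiffOn_comp hN k
  set Om : Set E2 := U ∩ Nk ⁻¹' {0}ᶜ with hOmdef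
  have hO : IsOpen Om := hNs.continuousOn.isOpen_inter_preimage hU isOpen_compl_singleton
  have hOU : Om ⊆ U := Set.inter_subset_left
  have hne : Om.Nonempty := ⟨x0, hx0, hk⟩
  obtain ⟨K, hF, hK, ⟨B⟩⟩ := exists_cbr Om hO hne
  have hX' : IsSurface s X Om := ⟨hX.1.mono hOU, fun x hx => hX.2 x (hOU hx)⟩
  have hsm' : ContDiffOn ℝ ∞ (meanCurv s X) Om := hsm.mono hOU
  have key := tlag_nor B hO hne hX' (tlag_mono hOU hs) hc0 (fun x hx => hH x (hOU hx))
    (B.ne _ (contDiffOn_ip s hsm' hsm') fun x hx => hW x (hOU hx)) i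
  rw [← B.Φ_pd s hO hsm' i, ← Φ_normalPart B hO hX' (contDiffOn_pd hO hsm' i)] at key
  have h1 : B.eta s k * B.φ Nk = 0 := congrFun key k
  rcases mul_eq_zero.1 h1 with h | h
  · exact B.eta_ne s k h
  · exact B.ne Nk (hNs.mono hOU) (fun x hx => hx.2) h

theorem lag_const (s : ℕ) {U : Set E2} (hU : IsOpen U) {X : E2 → E4}
    (hX : IsSurface s X U) (hs : IsLagrangian s X U)
    (hH : ∃ c : ℝ, c ≠ 0 ∧ ∀ x ∈ U, lap s X (meanCurv s X) x = c • meanCurv s X x) :
    ∀ i : Fin 2, ∀ x ∈ U,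
      pd i (fun y => ip s (meanCurv s X y) (meanCurv s X y)) x = 0 := by
  obtain ⟨c, hc0, hH⟩ := hH
  have hsm : ContDiffOn ℝ ∞ (meanCurv s X) U := contDiffOn_meanCurv hU hX
  set W : E2 → ℝ := fun x => ip s (meanCurv s X x) (meanCurv s X x) with hWdef
  have hW : ContDiffOn ℝ ∞ W U := contDiffOn_ip s hsm hsm
  intro i
  by_contra hcon
  push Not at hcon
  obtain ⟨x0, hx0, hne0⟩ := hcon
  have hpd : ContDiffOn ℝ ∞ (pd i W) U := contDiffOn_pd hU hW i
  set Om : Set E2 := U ∩ pd i W ⁻¹' {0}ᶜ with hOmdef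
  have hO : IsOpen Om := hpd.continuousOn.isOpen_inter_preimage hU isOpen_compl_singleton
  have hOU : Om ⊆ U := Set.inter_subset_left
  have hne : Om.Nonempty := ⟨x0, hx0, hne0⟩
  obtain ⟨K, hF, hK, ⟨B⟩⟩ := exists_cbr Om hO hne
  have hX' : IsSurface s X Om := ⟨hX.1.mono hOU, fun x hx => hX.2 x (hOU hx)⟩
  have hsm' : ContDiffOn ℝ ∞ (meanCurv s X) Om := hsm.mono hOU
  have h1 : B.φ (pd i W) ≠ 0 := B.ne _ (hpd.mono hOU) fun x hx => hx.2
  have hW0 : B.φ W ≠ 0 := by
    intro h0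
    apply h1
    rw [B.der i W (hW.mono hOU), h0, map_zero]
  have key := tlag_nor B hO hne hX' (tlag_mono hOU hs) hc0 (fun x hx => hH x (hOU hx)) hW0 i
  have h2 : B.φ W = B.Φ s (meanCurv s X) ⬝ᵥ B.Φ s (meanCurv s X) :=
    B.φ_ip s hsm' hsm'
  have e1 : B.D.d i (B.Φ s (meanCurv s X) ⬝ᵥ B.Φ s (meanCurv s X))
      = 2 * (dv (B.D.d i) (B.Φ s (meanCurv s X)) ⬝ᵥ B.Φ s (meanCurv s X)) := by
    simp only [dotProduct, map_sum, Derivation.leibniz, smul_eq_mul, dv, Finset.mul_sum]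
    exact Finset.sum_congr rfl fun k _ => by ring
  have e2 : ∀ j : Fin 2, dv (B.D.d j) (B.Φ s X) ⬝ᵥ B.Φ s (meanCurv s X) = 0 := by
    intro j
    have sX := contDiffOn_pd hO hX'.1 j
    rw [← B.Φ_pd s hO hX'.1 j, ← B.φ_ip s sX hsm', ← B.zero]
    exact B.congr _ _ (contDiffOn_ip s sX hsm') contDiffOn_const
      fun x hx => tlag_ipH (hX'.2 x hx) j
  have e3 : norK B.D (B.Φ s X) (dv (B.D.d i) (B.Φ s (meanCurv s X))) ⬝ᵥ B.Φ s (meanCurv s X)
      = dv (B.D.d i) (B.Φ s (meanCurv s X)) ⬝ᵥ B.Φ s (meanCurv s X) := by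
    unfold norK
    simp only [Fin.sum_univ_two, sub_dotProduct, add_dotProduct, smul_dotProduct, e2, smul_zero,
      add_zero, sub_zero]
  apply h1
  rw [B.der i W (hW.mono hOU), h2, e1, ← e3, key, zero_dotProduct, mul_zero]

end Pool.H60.LG
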